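import Mathlib

/-!
The Bessel type kernel of the cubic theta function.
-/

namespace Pool.Agent.P.MP_26a8c3_nt.QK

open MeasureTheory Set Real Filter Topology

/-- the elementary kernel -/
noncomputable def Kv (B v t : ℝ) : ℝ := v * exp (-(v * (t + B / t)))

/-- the limit shape of a Fourier coefficient -/
noncomputable def kB (B v : ℝ) : ℝ := ∫ t in Ioi (0 : ℝ), t ^ (-(2 / 3) : ℝ) * Kv B v t

/-- the normalised shape -/
noncomputable def kk (v : ℝ) : ℝ := kB (4 * π ^ 2) v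

/-- the continuous part of the shape -/
noncomputable def k0 (B v : ℝ) : ℝ :=
  ∫ a in Ioi (0 : ℝ), a ^ (-(2 / 3) : ℝ) * exp (-a) * exp (-(B * v ^ 2 / a))

variable {B v t : ℝ}

theorem Kv_pos (hv : 0 < v) : 0 < Kv B v t := mul_pos hv (exp_pos _)

theorem Kv_le (hB : 0 ≤ B) (hv : 0 < v) (ht : 0 < t) : Kv B v t ≤ v * exp (-(v * t)) := by
  refine mul_le_mul_of_nonneg_left (exp_le_exp.2 ?_) hv.le
  have : 0 ≤ v * (B / t) := by positivity
  nlinarith

theorem Kv_le' (hv : 0 < v) (ht : 0 < t) : Kv B v t ≤ v * exp (-(v * B / t)) := by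
  refine mul_le_mul_of_nonneg_left (exp_le_exp.2 ?_) hv.le
  have : 0 ≤ v * t := by positivity
  rw [mul_add, mul_div_assoc]
  linarith

theorem Kv_scale {b : ℝ} (hb : 0 < b) : Kv (b ^ 2 * B) v t = b⁻¹ * Kv B (b * v) (t / b) := by
  unfold Kv
  rw [← mul_assoc, inv_mul_cancel_left₀ hb.ne']
  congr 3
  rcases eq_or_ne t 0 with rfl | ht
  · simp
  · field_simp

theorem measurable_Kv (B : ℝ) : Measurable fun p : ℝ × ℝ => Kv B p.1 p.2 := by
  unfold Kv
  fun_prop

theorem continuous_Kv (B t : ℝ) : Continuous fun v => Kv B v t := by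
  unfold Kv
  fun_prop

theorem int_gam {s r : ℝ} (hs : -1 < s) (hr : 0 < r) :
    IntegrableOn (fun t : ℝ => t ^ s * exp (-(r * t))) (Ioi 0) := by
  simpa using integrableOn_rpow_mul_exp_neg_mul_rpow hs one_pos hr

theorem integrableOn_Kv {s : ℝ} (hs : -1 < s) (hB : 0 ≤ B) (hv : 0 < v) :
    IntegrableOn (fun t : ℝ => t ^ s * Kv B v t) (Ioi 0) := by
  refine ((int_gam hs hv).const_mul v).mono' ?_ ?_
  · exact (by unfold Kv; fun_prop : Measurable fun t : ℝ => t ^ s * Kv B v t).aestronglyMeasurable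
  · refine (ae_restrict_iff' measurableSet_Ioi).2 (Eventually.of_forall fun t ht => ?_)
    have ht' : 0 < t := ht
    rw [Real.norm_of_nonneg (mul_pos (rpow_pos_of_pos ht' _) (Kv_pos hv)).le, mul_left_comm]
    exact mul_le_mul_of_nonneg_left (Kv_le hB hv ht') (rpow_pos_of_pos ht' _).le

theorem kB_pos (hB : 0 ≤ B) (hv : 0 < v) : 0 < kB B v := by
  refine (setIntegral_pos_iff_support_of_nonneg_ae ?_
    (integrableOn_Kv (by norm_num) hB hv)).2 ?_
  · refine (ae_restrict_iff' measurableSet_Ioi).2 (Eventually.of_forall fun t ht => ?_)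
    exact (mul_pos (rpow_pos_of_pos ht _) (Kv_pos hv)).le
  · rw [inter_eq_self_of_subset_right]
    · simp
    · intro t ht
      exact (mul_pos (rpow_pos_of_pos ht _) (Kv_pos hv)).ne'

theorem kk_pos (hv : 0 < v) : 0 < kk v := kB_pos (by positivity) hv

theorem kB_scale {b : ℝ} (hb : 0 < b) :
    kB (b ^ 2 * B) v = b ^ (-(2 / 3) : ℝ) * kB B (b * v) := by
  unfold kB
  have h := integral_comp_mul_left_Ioi
    (fun t : ℝ => t ^ (-(2 / 3) : ℝ) * Kv B (b * v) t) 0 (inv_pos.2 hb)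
  rw [mul_zero, inv_inv, smul_eq_mul] at h
  have e : ∫ t in Ioi (0 : ℝ), t ^ (-(2 / 3) : ℝ) * Kv (b ^ 2 * B) v t =
      ∫ t in Ioi (0 : ℝ), (b⁻¹ * b ^ (-(2 / 3) : ℝ)) *
        ((b⁻¹ * t) ^ (-(2 / 3) : ℝ) * Kv B (b * v) (b⁻¹ * t)) := by
    refine setIntegral_congr_fun measurableSet_Ioi fun t ht => ?_
    have ht' : 0 < t := ht
    rw [Kv_scale hb, mul_rpow (inv_pos.2 hb).le ht'.le, inv_rpow hb.le, div_eq_inv_mul t b]
    have := (rpow_pos_of_pos hb (-(2 / 3) : ℝ)).ne'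
    field_simp
  rw [e, integral_const_mul, h]
  field_simp

theorem kB_eq_kk {b : ℝ} (hb : 0 < b) :
    kB (4 * π ^ 2 * b ^ 2) v = b ^ (-(2 / 3) : ℝ) * kk (b * v) := by
  rw [mul_comm, kB_scale hb, kk]

theorem kB_eq (hv : 0 < v) : kB B v = v ^ (2 / 3 : ℝ) * k0 B v := by
  unfold kB k0
  have h := integral_comp_mul_left_Ioi
    (fun a : ℝ => a ^ (-(2 / 3) : ℝ) * exp (-a) * exp (-(B * v ^ 2 / a))) 0 hv
  rw [mul_zero, smul_eq_mul] at h
  have e : ∫ t in Ioi (0 : ℝ), t ^ (-(2 / 3) : ℝ) * Kv B v t =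
      ∫ t in Ioi (0 : ℝ), (v * v ^ (2 / 3 : ℝ)) *
        ((v * t) ^ (-(2 / 3) : ℝ) * exp (-(v * t)) * exp (-(B * v ^ 2 / (v * t)))) := by
    refine setIntegral_congr_fun measurableSet_Ioi fun t ht => ?_
    have ht' : 0 < t := ht
    rw [Kv, mul_rpow hv.le ht'.le, rpow_neg hv.le, mul_assoc _ (exp _), ← exp_add,
      show -(v * t) + -(B * v ^ 2 / (v * t)) = -(v * (t + B / t)) by field_simp; ring]
    have := (rpow_pos_of_pos hv (2 / 3 : ℝ)).ne'
    field_simp
  rw [e, integral_const_mul, h]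
  field_simp

theorem int_k0 : IntegrableOn (fun a : ℝ => a ^ (-(2 / 3) : ℝ) * exp (-a)) (Ioi 0) := by
  simpa using int_gam (s := -(2 / 3)) (r := 1) (by norm_num) one_pos

theorem continuous_k0 (hB : 0 ≤ B) : Continuous (k0 B) := by
  refine continuous_of_dominated (bound := fun a : ℝ => a ^ (-(2 / 3) : ℝ) * exp (-a))
    (fun v => ?_) (fun v => ?_) int_k0 (Eventually.of_forall fun a => by fun_prop)
  · exact (by fun_prop : Measurable fun a : ℝ =>
      a ^ (-(2 / 3) : ℝ) * exp (-a) * exp (-(B * v ^ 2 / a))).aestronglyMeasurable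
  · refine (ae_restrict_iff' measurableSet_Ioi).2 (Eventually.of_forall fun a ha => ?_)
    have ha' : 0 < a := ha
    rw [Real.norm_of_nonneg (by positivity)]
    refine mul_le_of_le_one_right (by positivity) (exp_le_one_iff.2 ?_)
    have : 0 ≤ B * v ^ 2 / a := by positivity
    linarith

theorem continuousOn_kB (hB : 0 ≤ B) : ContinuousOn (kB B) (Ioi 0) := by
  refine ContinuousOn.congr (f := fun v => v ^ (2 / 3 : ℝ) * k0 B v) ?_ fun v hv => kB_eq hv
  exact ((continuous_rpow_const (by norm_num)).mul (continuous_k0 hB)).continuousOn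

theorem continuousOn_kk : ContinuousOn kk (Ioi 0) := continuousOn_kB (by positivity)

theorem continuousAt_kk (hv : 0 < v) : ContinuousAt kk v :=
  continuousOn_kk.continuousAt (Ioi_mem_nhds hv)

theorem measurable_kB (B : ℝ) : Measurable (kB B) := by
  have : StronglyMeasurable fun p : ℝ × ℝ => p.2 ^ (-(2 / 3) : ℝ) * Kv B p.1 p.2 :=
    ((by fun_prop : Measurable fun p : ℝ × ℝ => p.2 ^ (-(2 / 3) : ℝ)).mul
      (measurable_Kv B)).stronglyMeasurable
  exact (this.integral_prod_right' (ν := volume.restrict (Ioi 0))).measurable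

theorem measurable_kk : Measurable kk := measurable_kB _

/-- exponential decay -/
theorem kB_le : ∃ C, 0 < C ∧ ∀ B v, 0 ≤ B → 0 < v →
    kB B v ≤ C * v ^ (2 / 3 : ℝ) * exp (-(√B * v)) := by
  have hi := int_gam (s := -(2 / 3)) (r := 1 / 2) (by norm_num) (by norm_num)
  refine ⟨(∫ a in Ioi (0 : ℝ), a ^ (-(2 / 3) : ℝ) * exp (-(1 / 2 * a))) + 1, ?_,
    fun B v hB hv => ?_⟩
  · have : 0 ≤ ∫ a in Ioi (0 : ℝ), a ^ (-(2 / 3) : ℝ) * exp (-(1 / 2 * a)) :=
      setIntegral_nonneg measurableSet_Ioi fun a ha => by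
        have : 0 < a := ha
        positivity
    linarith
  have h1 : k0 B v ≤
      (∫ a in Ioi (0 : ℝ), a ^ (-(2 / 3) : ℝ) * exp (-(1 / 2 * a))) * exp (-(√B * v)) := by
    rw [← integral_mul_const]
    refine integral_mono_of_nonneg ?_ (hi.mul_const _) ?_
    · refine (ae_restrict_iff' measurableSet_Ioi).2 (Eventually.of_forall fun a ha => ?_)
      have : 0 < a := ha
      positivity
    · refine (ae_restrict_iff' measurableSet_Ioi).2 (Eventually.of_forall fun a ha => ?_)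
      have ha' : 0 < a := ha
      dsimp only
      rw [mul_assoc _ (exp _), mul_assoc _ (exp _), ← exp_add, ← exp_add]
      refine mul_le_mul_of_nonneg_left (exp_le_exp.2 ?_) (by positivity)
      have h2 : √B * v - a / 2 ≤ B * v ^ 2 / a := by
        rw [le_div_iff₀ ha']
        have h5 : B * v ^ 2 = (√B * v) ^ 2 := by rw [mul_pow, sq_sqrt hB]
        rw [h5]
        nlinarith [sq_nonneg (√B * v - a / 2), sq_nonneg a]
      linarith
  rw [kB_eq hv]
  have h3 := rpow_pos_of_pos hv (2 / 3 : ℝ)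
  have h4 := exp_pos (-(√B * v))
  nlinarith [mul_le_mul_of_nonneg_left h1 h3.le, mul_pos h3 h4]

theorem int_k0' (hB : 0 ≤ B) (v : ℝ) : IntegrableOn (fun a : ℝ =>
    a ^ (-(2 / 3) : ℝ) * exp (-a) * exp (-(B * v ^ 2 / a))) (Ioi 0) := by
  refine int_k0.mono' (by fun_prop : Measurable fun a : ℝ =>
    a ^ (-(2 / 3) : ℝ) * exp (-a) * exp (-(B * v ^ 2 / a))).aestronglyMeasurable ?_
  refine (ae_restrict_iff' measurableSet_Ioi).2 (Eventually.of_forall fun a ha => ?_)
  have ha' : 0 < a := ha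
  rw [Real.norm_of_nonneg (by positivity)]
  refine mul_le_of_le_one_right (by positivity) (exp_le_one_iff.2 ?_)
  have : 0 ≤ B * v ^ 2 / a := by positivity
  linarith

theorem k0_pos (hB : 0 ≤ B) (v : ℝ) : 0 < k0 B v := by
  refine (setIntegral_pos_iff_support_of_nonneg_ae ?_ (int_k0' hB v)).2 ?_
  · refine (ae_restrict_iff' measurableSet_Ioi).2 (Eventually.of_forall fun a ha => ?_)
    have : 0 < a := ha
    positivity
  · rw [inter_eq_self_of_subset_right]
    · simp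
    · intro a ha
      have : 0 < a := ha
      exact ne_of_gt (by positivity)

/-- the lower bound near zero -/
theorem le_kB (hB : 0 ≤ B) (V : ℝ) :
    ∃ c, 0 < c ∧ ∀ v, 0 < v → v ≤ V → c * v ^ (2 / 3 : ℝ) ≤ kB B v := by
  rcases lt_or_ge V 0 with hV | hV
  · exact ⟨1, one_pos, fun v h1 h2 => by linarith⟩
  obtain ⟨x, -, hx⟩ := (isCompact_Icc (a := 0) (b := V)).exists_isMinOn ⟨0, le_rfl, hV⟩
    (continuous_k0 hB).continuousOn
  refine ⟨_, k0_pos hB x, fun v h1 h2 => ?_⟩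
  rw [kB_eq h1, mul_comm]
  exact mul_le_mul_of_nonneg_left (hx ⟨h1.le, h2⟩) (rpow_pos_of_pos h1 _).le

/-- the linear lower bound near zero -/
theorem le_kB' (hB : 0 ≤ B) {V : ℝ} (hV : 0 < V) :
    ∃ c, 0 < c ∧ ∀ v, 0 < v → v ≤ V → c * v ≤ kB B v := by
  obtain ⟨c, hc, h⟩ := le_kB hB V
  refine ⟨c * V ^ (-(1 / 3) : ℝ), by positivity, fun v h1 h2 => le_trans ?_ (h v h1 h2)⟩
  rw [mul_assoc]
  refine mul_le_mul_of_nonneg_left ?_ hc.le
  have h3 : V ^ (-(1 / 3) : ℝ) ≤ v ^ (-(1 / 3) : ℝ) :=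
    rpow_le_rpow_of_nonpos h1 h2 (by norm_num)
  calc V ^ (-(1 / 3) : ℝ) * v ≤ v ^ (-(1 / 3) : ℝ) * v := mul_le_mul_of_nonneg_right h3 h1.le
    _ = v ^ (2 / 3 : ℝ) := by
      rw [← rpow_add_one h1.ne']
      norm_num

theorem mellin_gauss {r : ℝ} (hr : 0 < r) {z : ℂ} (hz : 0 < z.re) :
    ∫ v in Ioi (0 : ℝ), (v : ℂ) ^ (z - 1) * Complex.exp (-(r * v ^ 2)) =
      1 / 2 * (1 / r) ^ (z / 2) * Complex.Gamma (z / 2) := by
  have h := mellin_comp_rpow (fun t : ℝ => Complex.exp (-(r * t))) z 2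
  have h2 : mellin (fun t : ℝ => Complex.exp (-(r * t))) (z / 2) =
      (1 / r) ^ (z / 2) * Complex.Gamma (z / 2) :=
    Complex.integral_cpow_mul_exp_neg_mul_Ioi (by simp; positivity) hr
  rw [show ((2 : ℝ) : ℂ) = 2 by norm_num, h2] at h
  rw [mul_assoc]
  convert h using 1
  · refine setIntegral_congr_fun measurableSet_Ioi fun v _ => ?_
    simp
  · simp

/-- the Mellin transform -/
theorem hasMellin_kB (hB : 0 < B) {w : ℂ} (hw : -(2 / 3) < w.re) :
    HasMellin (fun v => (kB B v : ℂ)) w (1 / 2 * (B : ℂ) ^ (-(w / 2 + 1 / 3)) *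
      Complex.Gamma (w / 2 + 1 / 3) * Complex.Gamma (w / 2 + 2 / 3)) := by
  let F : ℝ × ℝ → ℂ := fun p => (p.1 : ℂ) ^ (w + 2 / 3 - 1) *
    ((p.2 ^ (-(2 / 3) : ℝ) * exp (-p.2) * exp (-(B * p.1 ^ 2 / p.2)) : ℝ) : ℂ)
  have hFm : Measurable F := by
    refine Measurable.mul ?_ (Complex.measurable_ofReal.comp (by fun_prop))
    exact (Complex.measurable_ofReal.comp measurable_fst).pow_const _
  have hn : ∀ v a, 0 < v → 0 < a → ‖F (v, a)‖ = a ^ (-(2 / 3) : ℝ) * exp (-a) *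
      (v ^ (w.re - 1 / 3) * exp (-(B / a) * v ^ (2 : ℝ))) := fun v a hv ha => by
    simp only [F]
    rw [norm_mul, Complex.norm_cpow_eq_rpow_re_of_pos hv, Complex.norm_real,
      Real.norm_of_nonneg (by positivity),
      show (w + 2 / 3 - 1).re = w.re - 1 / 3 by simp; ring, rpow_two,
      show -(B * v ^ 2 / a) = -(B / a) * v ^ 2 by ring]
    ring
  have hF : Integrable F ((volume.restrict (Ioi 0)).prod (volume.restrict (Ioi 0))) := by
    refine (integrable_prod_iff' hFm.aestronglyMeasurable).2 ⟨?_, ?_⟩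
    · refine (ae_restrict_iff' measurableSet_Ioi).2 (Eventually.of_forall fun a ha => ?_)
      have ha' : 0 < a := ha
      refine ((integrableOn_rpow_mul_exp_neg_mul_rpow (s := w.re - 1 / 3) (p := 2) (b := B / a)
        (by linarith) two_pos (by positivity)).const_mul
        (a ^ (-(2 / 3) : ℝ) * exp (-a))).mono'
        (hFm.comp (measurable_id.prodMk measurable_const)).aestronglyMeasurable ?_
      exact (ae_restrict_iff' measurableSet_Ioi).2
        (Eventually.of_forall fun v hv => (hn v a hv ha').le)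
    · have h1 := (int_gam (s := w.re / 2 - 1 / 3) (r := 1) (by linarith) one_pos).const_mul
        (B ^ (-(w.re - 1 / 3 + 1) / 2) * (1 / 2) * Gamma ((w.re - 1 / 3 + 1) / 2))
      refine h1.congr ((ae_restrict_iff' measurableSet_Ioi).2
        (Eventually.of_forall fun a ha => ?_))
      have ha' : 0 < a := ha
      dsimp only
      rw [setIntegral_congr_fun measurableSet_Ioi fun v hv => hn v a hv ha', integral_const_mul,
        integral_rpow_mul_exp_neg_mul_rpow two_pos (by linarith) (by positivity),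
        div_rpow hB.le ha'.le, one_mul, show w.re / 2 - 1 / 3 =
          -(2 / 3) - -(w.re - 1 / 3 + 1) / 2 by ring, rpow_sub ha']
      ring
  have hin : ∀ v ∈ Ioi (0 : ℝ), ∫ a in Ioi (0 : ℝ), F (v, a) =
      (v : ℂ) ^ (w - 1) • (kB B v : ℂ) := fun v hv => by
    have hv' : 0 < v := hv
    simp only [F]
    rw [integral_const_mul, integral_complex_ofReal, kB_eq hv', smul_eq_mul, Complex.ofReal_mul,
      Complex.ofReal_cpow hv'.le, ← mul_assoc,
      ← Complex.cpow_add _ _ (Complex.ofReal_ne_zero.2 hv'.ne')]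
    congr 2
    push_cast
    ring
  refine ⟨(IntegrableOn.congr_fun hF.integral_prod_left hin measurableSet_Ioi), ?_⟩
  rw [mellin, ← setIntegral_congr_fun measurableSet_Ioi hin, integral_integral_swap hF]
  have h2 : ∀ a ∈ Ioi (0 : ℝ), ∫ v in Ioi (0 : ℝ), F (v, a) =
      (1 / 2 * (B : ℂ) ^ (-(w / 2 + 1 / 3)) * Complex.Gamma (w / 2 + 1 / 3)) *
        ((a : ℂ) ^ (w / 2 + 2 / 3 - 1) * Complex.exp (-((1 : ℝ) * a))) := fun a ha => by
    have ha' : 0 < a := ha
    have h3 := mellin_gauss (r := B / a) (by positivity) (z := w + 2 / 3) (by simp; linarith)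
    have h4 : ∀ v ∈ Ioi (0 : ℝ), F (v, a) = ((a ^ (-(2 / 3) : ℝ) * exp (-a) : ℝ) : ℂ) *
        ((v : ℂ) ^ (w + 2 / 3 - 1) * Complex.exp (-(((B / a : ℝ) : ℂ) * v ^ 2))) := fun v _ => by
      simp only [F]
      push_cast
      rw [show -((B : ℂ) * v ^ 2 / a) = -(B / a * v ^ 2) by ring]
      ring
    rw [setIntegral_congr_fun measurableSet_Ioi h4, integral_const_mul, h3,
      show (w + 2 / 3) / 2 = w / 2 + 1 / 3 by ring,
      show (1 / ((B / a : ℝ) : ℂ)) = ((B⁻¹ : ℝ) : ℂ) * (a : ℂ) by push_cast; field_simp,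
      Complex.mul_cpow_ofReal_nonneg (inv_pos.2 hB).le ha'.le, Complex.ofReal_inv,
      Complex.inv_cpow _ _ (by rw [Complex.arg_ofReal_of_nonneg hB.le]; exact pi_ne_zero.symm),
      ← Complex.cpow_neg, Complex.ofReal_mul, Complex.ofReal_cpow ha'.le,
      show w / 2 + 2 / 3 - 1 = ((-(2 / 3) : ℝ) : ℂ) + (w / 2 + 1 / 3) by push_cast; ring,
      Complex.cpow_add ((-(2 / 3) : ℝ) : ℂ) _ (Complex.ofReal_ne_zero.2 ha'.ne')]
    push_cast
    rw [one_mul]
    ring
  rw [setIntegral_congr_fun measurableSet_Ioi h2, integral_const_mul,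
    Complex.integral_cpow_mul_exp_neg_mul_Ioi (by simp; linarith) one_pos]
  simp

/-- the Gaussian integral over the plane -/
theorem integral_gauss {A : ℝ} (hA : 0 < A) (μ : ℂ) :
    ∫ z : ℂ, Complex.exp (-(A * ‖z‖ ^ 2) - 2 * π * Complex.I * (2 * (μ * z).re : ℝ)) =
      (π / A) * Complex.exp (-(4 * π ^ 2 * ‖μ‖ ^ 2 / A)) := by
  have h := GaussianFourier.integral_cexp_neg_mul_sq_norm_add (V := ℂ) (b := A) (by simpa using hA)
    (-4 * π * Complex.I) ((starRingEnd ℂ) μ)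
  rw [Complex.finrank_real_complex] at h
  convert h using 3
  · congr 2
    simp [Complex.inner]
    ring
  · norm_num
  · rw [Complex.norm_conj, mul_pow, Complex.I_sq]
    field_simp

end Pool.Agent.P.MP_26a8c3_nt.QK
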