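import Pool.Agent.P.MP_26a8c3_nt.QK.Shape

/-!
The calculus of the limits of the normalised sums.
-/

namespace Pool.Agent.P.MP_26a8c3_nt.QK

open MeasureTheory Set Real Filter Topology

variable {ι κ : Type*} {N : ι → ℝ} {g g' : ι → ℂ} {B a b : ℝ} {A A' : ℂ}

theorem Adm.of_le (h : Adm N g) (K : ℝ) (e : ∀ c, ‖g' c‖ ≤ K * ‖g c‖) : Adm N g' := by
  refine ⟨fun c hc => h.pos c fun h0 => hc ?_, (h.sum.mul_left K).of_nonneg_of_le
    (fun c => by positivity) fun c => ?_⟩
  · simpa [h0] using e c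
  · rw [← mul_div_assoc]
    exact div_le_div_of_nonneg_right (e c) (by positivity)

theorem Adm.const_mul (h : Adm N g) (u : ℂ) : Adm N fun c => u * g c :=
  h.of_le ‖u‖ fun _ => (norm_mul _ _).le

theorem Adm.add (h : Adm N g) (h' : Adm N g') : Adm N fun c => g c + g' c := by
  refine ⟨fun c hc => ?_, (h.sum.add h'.sum).of_nonneg_of_le (fun c => by positivity) fun c => ?_⟩
  · by_cases h0 : g c = 0
    · exact h'.pos c fun h1 => hc (by simp [h0, h1])
    · exact h.pos c h0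
  · rw [← add_div]
    exact div_le_div_of_nonneg_right (norm_add_le _ _) (by positivity)

theorem Adm.sub (h : Adm N g) (h' : Adm N g') : Adm N fun c => g c - g' c := by
  simpa [sub_eq_add_neg] using h.add (h'.const_mul (-1))

theorem Adm.scale (h : Adm N g) {P : ℝ} (hP : 0 < P) : Adm (fun c => P * N c) g := by
  refine ⟨fun c hc => mul_pos hP (h.pos c hc), (h.sum.mul_left (P ^ 4)⁻¹).congr fun c => ?_⟩
  rw [mul_pow, div_mul_eq_div_div_swap, div_eq_inv_mul _ (P ^ 4)]

theorem Adm.comp (h : Adm N g) {φ : κ → ι} (hφ : Function.Injective φ) :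
    Adm (fun c => N (φ c)) fun c => g (φ c) :=
  ⟨fun c => h.pos (φ c), h.sum.comp_injective hφ⟩

/-- admissibility from a linear bound -/
theorem adm_of_le {K : ℝ} (h0 : ∀ c, g c ≠ 0 → 0 < N c) (h1 : ∀ c, ‖g c‖ ≤ K * N c)
    (h2 : Summable fun c => (N c ^ 3)⁻¹) : Adm N g := by
  refine ⟨h0, (h2.abs.mul_left |K|).of_nonneg_of_le (fun c => by positivity) fun c => ?_⟩
  rcases eq_or_ne (g c) 0 with e | e
  · simp only [e, norm_zero, zero_div]
    positivity
  · have := h0 c e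
    rw [abs_of_pos (by positivity : 0 < (N c ^ 3)⁻¹), div_le_iff₀ (by positivity)]
    refine (h1 c).trans ?_
    rw [show |K| * (N c ^ 3)⁻¹ * N c ^ 4 = |K| * N c by field_simp]
    exact mul_le_mul_of_nonneg_right (le_abs_self K) this.le

theorem aa_const_mul (u : ℂ) (y v : ℝ) : aa N (fun c => u * g c) B y v = u * aa N g B y v := by
  simp only [aa, mul_assoc, tsum_mul_left]

theorem ff_const_mul (u : ℂ) (y v : ℝ) : ff N (fun c => u * g c) B y v = u * ff N g B y v := by
  rw [ff, ff, aa_const_mul, mul_left_comm]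

theorem aa_add (h : Adm N g) (h' : Adm N g') (hB : 0 ≤ B) {y v : ℝ} (hy : 0 < y) (hv : 0 < v) :
    aa N (fun c => g c + g' c) B y v = aa N g B y v + aa N g' B y v := by
  simp only [aa, add_mul]
  exact (h.summable hB hy hv).tsum_add (h'.summable hB hy hv)

theorem ff_add (h : Adm N g) (h' : Adm N g') (hB : 0 ≤ B) {y v : ℝ} (hy : 0 < y) (hv : 0 < v) :
    ff N (fun c => g c + g' c) B y v = ff N g B y v + ff N g' B y v := by
  rw [ff, ff, ff, aa_add h h' hB hy hv, mul_add]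

theorem aa_comp {φ : κ → ι} (hφ : Function.Injective φ) (h : ∀ c, g c ≠ 0 → c ∈ range φ)
    (y v : ℝ) : aa (fun c => N (φ c)) (fun c => g (φ c)) B y v = aa N g B y v :=
  hφ.tsum_eq (f := fun c => g c * ((y / N c * Kv B v (N c / y) : ℝ) : ℂ))
    fun c hc => h c (left_ne_zero_of_mul hc)

theorem aa_congr {N' : ι → ℝ} (h : ∀ c, g c ≠ 0 → N c = N' c) (y v : ℝ) :
    aa N g B y v = aa N' g B y v := by
  refine tsum_congr fun c => ?_
  rcases eq_or_ne (g c) 0 with e | e
  · simp [e]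
  · rw [h c e]

theorem aa_scale (P y v : ℝ) : aa (fun c => P * N c) g B y v = aa N g B (y / P) v := by
  refine tsum_congr fun c => ?_
  rw [div_div y, div_div_eq_mul_div (N c), mul_comm (N c)]

theorem aa_B {β : ℝ} (hβ : 0 < β) (y v : ℝ) :
    aa N g (β ^ 2 * B) y v = ((β⁻¹ ^ 2 : ℝ) : ℂ) * aa N g B (β * y) (β * v) := by
  rw [aa, aa, ← tsum_mul_left]
  refine tsum_congr fun c => ?_
  rw [Kv_scale hβ, mul_left_comm _ (g c), ← Complex.ofReal_mul, div_div (N c), mul_comm y β]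
  congr 2
  field_simp

theorem Lim.unique (h : Adm N g) (hB : 0 ≤ B) (h1 : Lim N g B A) (h2 : Lim N g B A') : A = A' :=
  h.uniq hB one_pos one_lt_two (h1 1 2 one_pos) (h2 1 2 one_pos)

theorem Lim.const_mul (h : Lim N g B A) (u : ℂ) : Lim N (fun c => u * g c) B (u * A) := by
  intro a b ha
  have := (h a b ha).const_mul (‖u‖ ^ 2)
  simp only [← Sq_mul, mul_zero, mul_sub, ← mul_assoc] at this
  simpa only [ff_const_mul] using this

theorem Lim.add (k : Adm N g) (k' : Adm N g') (hB : 0 ≤ B) (h : Lim N g B A)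
    (h' : Lim N g' B A') : Lim N (fun c => g c + g' c) B (A + A') := by
  intro a b ha
  have := ((h a b ha).const_mul 2).add ((h' a b ha).const_mul 2)
  simp only [mul_zero, add_zero] at this
  refine squeeze_zero' (Eventually.of_forall fun _ => Sq_nonneg) ?_ this
  filter_upwards [eventually_gt_atTop 0] with y hy
  refine le_trans (le_of_eq (Sq_congr fun v hv => ?_)) (Sq_add_le ha
    ((k.cont_ff hB hy).sub (continuousOn_const.mul (cont_kB hB)))
    ((k'.cont_ff hB hy).sub (continuousOn_const.mul (cont_kB hB))))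
  rw [ff_add k k' hB hy (ha.trans_le hv.1)]
  congr 1
  ring

theorem Lim.sub (k : Adm N g) (k' : Adm N g') (hB : 0 ≤ B) (h : Lim N g B A)
    (h' : Lim N g' B A') : Lim N (fun c => g c - g' c) B (A - A') := by
  simpa [sub_eq_add_neg] using h.add k (k'.const_mul (-1)) hB (h'.const_mul (-1))

theorem Lim.zero : Lim N (fun _ => 0) B 0 := fun a b _ => by simp [ff, aa, Sq]

/-- a family which is close to a multiple of a convergent family -/
theorem Lim.of_close (k : Adm N g) (k' : Adm N g') (hB : 0 ≤ B) (h : Lim N g B A) (u : ℂ)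
    (h' : ∀ a b : ℝ, 0 < a → Tendsto
      (fun y => Sq a b fun v => ff N g' B y v - u * ff N g B y v) atTop (𝓝 0)) :
    Lim N g' B (u * A) := by
  intro a b ha
  have := ((h' a b ha).const_mul 2).add ((h.const_mul u a b ha).const_mul 2)
  simp only [mul_zero, add_zero, ff_const_mul] at this
  refine squeeze_zero' (Eventually.of_forall fun _ => Sq_nonneg) ?_ this
  filter_upwards [eventually_gt_atTop 0] with y hy
  exact Sq_tri ha (k'.cont_ff hB hy) (continuousOn_const.mul (k.cont_ff hB hy))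
    (continuousOn_const.mul (cont_kB hB))

theorem lim_comp {φ : κ → ι} (hφ : Function.Injective φ) (h : ∀ c, g c ≠ 0 → c ∈ range φ) :
    Lim (fun c => N (φ c)) (fun c => g (φ c)) B A ↔ Lim N g B A := by
  simp only [Lim, ff, aa_comp hφ h]

theorem lim_congr {N' : ι → ℝ} (h : ∀ c, g c ≠ 0 → N c = N' c) :
    Lim N g B A ↔ Lim N' g B A := by
  simp only [Lim, ff, aa_congr h]

theorem Lim.scale (h : Lim N g B A) {P : ℝ} (hP : 0 < P) :
    Lim (fun c => P * N c) g B (((P ^ (-(4 / 3) : ℝ) : ℝ) : ℂ) * A) := by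
  intro a b ha
  have := ((h a b ha).comp (tendsto_id.atTop_div_const hP)).const_mul
    (‖((P ^ (-(4 / 3) : ℝ) : ℝ) : ℂ)‖ ^ 2)
  simp only [← Sq_mul, mul_zero, Function.comp, id] at this
  refine this.congr' ?_
  filter_upwards [eventually_gt_atTop 0] with y hy
  congr 1
  funext v
  rw [ff, ff, aa_scale, mul_sub, ← mul_assoc, ← mul_assoc, ← Complex.ofReal_mul,
    ← mul_rpow hP.le (by positivity), mul_div_cancel₀ _ hP.ne']

theorem Sq_comp {f : ℝ → ℂ} {β : ℝ} (hβ : 0 < β) :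
    Sq a b (fun v => f (β * v)) = β⁻¹ * Sq (β * a) (β * b) f := by
  rcases le_or_gt a b with h | h
  · rw [Sq, Sq, integral_Icc_eq_integral_Ioc, integral_Icc_eq_integral_Ioc,
      ← intervalIntegral.integral_of_le h,
      ← intervalIntegral.integral_of_le (mul_le_mul_of_nonneg_left h hβ.le),
      intervalIntegral.integral_comp_mul_left (fun v => ‖f v‖ ^ 2) hβ.ne', smul_eq_mul]
  · simp [Sq, Icc_eq_empty_of_lt h, Icc_eq_empty_of_lt (mul_lt_mul_of_pos_left h hβ)]

theorem Lim.of_B (h : Lim N g B A) {β : ℝ} (hβ : 0 < β) : Lim N g (β ^ 2 * B) A := by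
  intro a b ha
  have := ((h (β * a) (β * b) (mul_pos hβ ha)).comp (tendsto_id.const_mul_atTop hβ)).const_mul
    (‖((β ^ (-(2 / 3) : ℝ) : ℝ) : ℂ)‖ ^ 2 * β⁻¹)
  simp only [mul_zero, Function.comp, id, mul_assoc, ← Sq_comp hβ, ← Sq_mul] at this
  refine this.congr' ?_
  filter_upwards [eventually_gt_atTop 0] with y hy
  congr 1
  funext v
  have e : β ^ (-(2 / 3) : ℝ) * β ^ (-(4 / 3) : ℝ) = β⁻¹ ^ 2 := by
    rw [← rpow_add hβ, show (-(2 / 3) + -(4 / 3) : ℝ) = -(2 : ℕ) by norm_num, rpow_neg hβ.le,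
      rpow_natCast, inv_pow]
  rw [ff, ff, aa_B hβ, kB_scale hβ, mul_rpow hβ.le hy.le, ← e]
  push_cast
  ring

/-- the limit does not depend on the positive parameter `B` -/
theorem Lim.change (h : Lim N g B A) (hB : 0 < B) {B' : ℝ} (hB' : 0 < B') : Lim N g B' A := by
  have := h.of_B (β := √(B' / B)) (by positivity)
  rwa [sq_sqrt (by positivity), div_mul_cancel₀ _ hB.ne'] at this

theorem kB_zero {v : ℝ} (hv : 0 < v) : kB 0 v = v ^ (2 / 3 : ℝ) * Gamma (1 / 3) := by
  rw [kB_eq hv, Gamma_eq_integral (by norm_num), k0]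
  congr 1
  refine setIntegral_congr_fun measurableSet_Ioi fun a _ => ?_
  simp only [zero_mul, zero_div, neg_zero, exp_zero, mul_one]
  rw [mul_comm]
  norm_num

theorem ff_zero {y v : ℝ} (hy : 0 < y) (hv : 0 < v) :
    ff N g 0 y v = ((v ^ (2 / 3 : ℝ) : ℝ) : ℂ) * (((y / v) ^ (-(1 / 3) : ℝ) : ℝ) *
      ∑' c, g c / N c * (exp (-(N c / (y / v))) : ℝ)) := by
  rw [ff, aa, ← mul_assoc, ← tsum_mul_left, ← tsum_mul_left]
  refine tsum_congr fun c => ?_
  have e : v ^ (2 / 3 : ℝ) * (y / v) ^ (-(1 / 3) : ℝ) = y ^ (-(4 / 3) : ℝ) * y * v := by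
    rw [div_rpow hy.le hv.le, ← rpow_add_one hy.ne', ← mul_div_assoc, mul_div_right_comm,
      ← rpow_sub hv, mul_comm]
    norm_num
  rw [← Complex.ofReal_mul, e, Kv, zero_div, add_zero, div_div_eq_mul_div (N c),
    show v * (N c / y) = N c * v / y by ring]
  push_cast
  ring

/-- the constant term -/
theorem lim_zero {s : ℂ} (h : Tendsto (fun y : ℝ => ((y ^ (-(1 / 3) : ℝ) : ℝ) : ℂ) *
    ∑' c, g c / N c * (exp (-(N c / y)) : ℝ)) atTop (𝓝 s)) :
    Lim N g 0 (s / (Gamma (1 / 3) : ℝ)) := by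
  intro a b ha
  rcases lt_or_ge b a with hab | hab
  · simp [Sq, Icc_eq_empty_of_lt hab]
  have hb := ha.trans_le hab
  have hG : ((Gamma (1 / 3) : ℝ) : ℂ) ≠ 0 :=
    Complex.ofReal_ne_zero.2 (Gamma_pos_of_pos (by norm_num)).ne'
  refine Metric.tendsto_atTop.2 fun ε hε => ?_
  have h1 : 0 < (b ^ (2 / 3 : ℝ)) ^ 2 * (b - a) + 1 := by
    have : 0 ≤ b - a := by linarith
    positivity
  obtain ⟨Y, hY⟩ := Metric.tendsto_atTop.1 h _
    (sqrt_pos.2 (div_pos hε h1))
  refine ⟨max 1 Y * b, fun y hy => ?_⟩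
  have hy' : 0 < y := lt_of_lt_of_le (by positivity) hy
  rw [Real.dist_eq, sub_zero, abs_of_nonneg Sq_nonneg]
  refine (Sq_le_of (C := (b ^ (2 / 3 : ℝ)) ^ 2 * (ε / ((b ^ (2 / 3 : ℝ)) ^ 2 * (b - a) + 1))) hab
    fun v hv => ?_).trans_lt ?_
  · have hv' := ha.trans_le hv.1
    have h2 := hY (y / v) (by
      rw [ge_iff_le, le_div_iff₀ hv']
      exact (mul_le_mul (le_max_right 1 Y) hv.2 hv'.le (by positivity)).trans hy)
    rw [ff_zero hy' hv', kB_zero hv', Complex.ofReal_mul, mul_left_comm (s / _),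
      div_mul_cancel₀ _ hG, ← mul_sub, norm_mul, mul_pow, Complex.norm_real,
      Real.norm_of_nonneg (by positivity), ← dist_eq_norm]
    refine mul_le_mul (pow_le_pow_left₀ (by positivity) (rpow_le_rpow hv'.le hv.2 (by norm_num)) 2)
      ?_ (by positivity) (by positivity)
    exact (pow_le_pow_left₀ dist_nonneg h2.le 2).trans_eq (sq_sqrt (div_pos hε h1).le)
  · rw [mul_right_comm, ← mul_div_assoc, div_lt_iff₀ h1]
    nlinarith

end Pool.Agent.P.MP_26a8c3_nt.QK
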