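import Pool.Agent.P.MP_26a8c3_nt.QK.K
import Pool.Agent.P.MP_26a8c3_nt.QO.Poi
import Pool.Agent.P.MP_26a8c3_nt.QO.Sym

/-!
The odd part of the transformation law gives the summation formula.
-/

namespace Pool.Agent.P.MP_26a8c3_nt.QK

open Set Filter Topology Complex Pool.Agent.P.MP_26a8c3_nt.QO
open scoped ComplexConjugate

theorem ex_sub (z : ℂ) : ex z - ex (-z) = 2 * I * (Real.sin (4 * Real.pi * z.re) : ℝ) := by
  rw [ex, ex, ofReal_sin, Complex.sin]
  simp only [neg_re]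
  push_cast
  rw [show 2 * (Real.pi : ℂ) * I * (2 * z.re) = 4 * Real.pi * z.re * I by ring,
    show 2 * (Real.pi : ℂ) * I * (2 * -z.re) = -(4 * Real.pi * z.re) * I by ring]
  linear_combination (cexp (4 * Real.pi * z.re * I) - cexp (-(4 * Real.pi * z.re) * I)) * I_sq

theorem sin_lim {x : ℝ → ℝ} {ξ : ℝ} (h : Tendsto x (𝓝[>] 0) (𝓝 ξ)) :
    Tendsto (fun t => Real.sin (t * x t) / t) (𝓝[>] 0) (𝓝 ξ) := by
  have h0 : Tendsto (fun t : ℝ => t) (𝓝[>] 0) (𝓝 0) := tendsto_nhdsWithin_of_tendsto_nhds tendsto_id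
  have h1 : Tendsto (fun t => Real.sinc (t * x t) * x t) (𝓝[>] 0) (𝓝 (Real.sinc (0 * ξ) * ξ)) :=
    ((Real.continuous_sinc.tendsto _).comp (h0.mul h)).mul h
  rw [zero_mul, Real.sinc_zero, one_mul] at h1
  refine h1.congr' (eventually_nhdsWithin_of_forall fun t ht => ?_)
  have ht' : t ≠ 0 := ne_of_gt ht
  rcases eq_or_ne (x t) 0 with e | e
  · simp [e]
  · rw [Real.sinc_of_ne_zero (mul_ne_zero ht' e)]
    field_simp

theorem odd_lim {ι : Type*} {F : ι → ℝ → ℂ} {F0 μ : ι → ℂ} {D : ℝ → ℂ} {D0 : ℂ} {u : ι → ℝ}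
    (hu : Summable u) (hF : ∀ i, Tendsto (F i) (𝓝[>] 0) (𝓝 (F0 i)))
    (hD : Tendsto D (𝓝[>] 0) (𝓝 D0)) (hb : ∀ᶠ t in 𝓝[>] (0 : ℝ), ∀ i, ‖F i t‖ * ‖μ i‖ ≤ u i) :
    Tendsto (fun t : ℝ => ∑' i, F i t * ((ex (μ i * (t * D t)) - ex (-(μ i * (t * D t)))) / t))
      (𝓝[>] 0) (𝓝 (∑' i, F0 i * (8 * Real.pi * I * (μ i * D0).re))) := by
  have e : ∀ i (t : ℝ), (ex (μ i * (t * D t)) - ex (-(μ i * (t * D t)))) / t =
      2 * I * (Real.sin (t * (4 * Real.pi * (μ i * D t).re)) / t : ℝ) := fun i t => by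
    rw [ex_sub, mul_left_comm (μ i), re_ofReal_mul, mul_left_comm _ t, ofReal_div, mul_div_assoc]
  simp only [e]
  refine tendsto_tsum_of_dominated_convergence (hu.mul_left (8 * Real.pi * (‖D0‖ + 1)))
    (fun i => (hF i).mul ?_) ?_
  · have h1 := sin_lim (((continuous_re.tendsto _).comp (hD.const_mul (μ i))).const_mul
      (4 * Real.pi))
    have h2 := ((continuous_ofReal.tendsto _).comp h1).const_mul (2 * I)
    rw [show 8 * (Real.pi : ℂ) * I * (μ i * D0).re =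
      2 * I * (4 * Real.pi * (μ i * D0).re : ℝ) by push_cast; ring]
    exact h2
  · filter_upwards [hb, hD.norm.eventually (gt_mem_nhds (lt_add_one ‖D0‖)), self_mem_nhdsWithin]
      with t h1 h2 h3 i
    have ht : 0 < t := h3
    have h4 : |Real.sin (t * (4 * Real.pi * (μ i * D t).re)) / t| ≤
        4 * Real.pi * (‖μ i‖ * (‖D0‖ + 1)) := by
      rw [abs_div, abs_of_pos ht, div_le_iff₀' ht]
      refine Real.abs_sin_le_abs.trans ?_
      rw [abs_mul, abs_of_pos ht, abs_mul, abs_of_pos (by positivity : 0 < 4 * Real.pi)]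
      gcongr
      exact (abs_re_le_norm _).trans ((norm_mul _ _).trans_le (by gcongr))
    rw [norm_mul, norm_mul, norm_mul, norm_real, Real.norm_eq_abs, norm_I, Complex.norm_ofNat]
    calc ‖F i t‖ * (2 * 1 * |Real.sin (t * (4 * Real.pi * (μ i * D t).re)) / t|)
        ≤ ‖F i t‖ * (2 * 1 * (4 * Real.pi * (‖μ i‖ * (‖D0‖ + 1)))) := by gcongr
      _ = 8 * Real.pi * (‖D0‖ + 1) * (‖F i t‖ * ‖μ i‖) := by ring
      _ ≤ _ := mul_le_mul_of_nonneg_left (h1 i) (by positivity)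

theorem summable_exp_ab {c : ℝ} (hc : 0 < c) : Summable fun n : O => Real.exp (-(c * ab n)) := by
  have h := (summable_dec (Φ := fun z => (Real.exp (-‖z‖) : ℂ))
    ⟨1, fun z => by rw [norm_real, Real.norm_of_nonneg (Real.exp_pos _).le, one_mul]⟩
    (a := c) (ofReal_ne_zero.2 hc.ne') 0).norm
  simpa only [add_zero, norm_mul, norm_real, Real.norm_of_nonneg hc.le,
    Real.norm_of_nonneg (Real.exp_pos _).le, ab] using h

theorem kB_ab_le {b a a' : ℝ} (hb : 0 < b) (ha : 0 < a) (k : ℕ) :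
    ∃ u : O → ℝ, Summable u ∧ ∀ n : O, n ≠ 0 → ∀ v ∈ Icc a a', ab n ^ k * kB b (ab n * v) ≤ u n := by
  obtain ⟨C, hC, h⟩ := kB_le
  have hc : 0 < √b * a / 2 := by positivity
  refine ⟨fun n => C * (1 + |a'|) * ((k + 1).factorial / (√b * a / 2) ^ (k + 1)) *
    Real.exp (-(√b * a / 2 * ab n)), (summable_exp_ab hc).mul_left _, fun n hn v hv => ?_⟩
  have h0 := ab_pos hn
  have hv0 := ha.trans_le hv.1
  have h1 : 1 ≤ ab n := by
    rw [ab_eq]
    exact Real.one_le_sqrt.2 (one_le_N hn)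
  have h2 : (ab n * v) ^ (2 / 3 : ℝ) ≤ (1 + |a'|) * ab n := by
    have k1 : ab n * v ≤ (1 + |a'|) * ab n := by nlinarith [le_abs_self a', hv.2]
    have k2 : 1 ≤ (1 + |a'|) * ab n := by nlinarith [abs_nonneg a']
    calc (ab n * v) ^ (2 / 3 : ℝ) ≤ ((1 + |a'|) * ab n) ^ (2 / 3 : ℝ) := by gcongr
      _ ≤ ((1 + |a'|) * ab n) ^ (1 : ℝ) := Real.rpow_le_rpow_of_exponent_le k2 (by norm_num)
      _ = _ := Real.rpow_one _
  have h3 := Real.pow_div_factorial_le_exp _ (mul_pos hc h0).le (k + 1)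
  have h4 : Real.exp (-(√b * (ab n * v))) ≤ Real.exp (-(√b * a / 2 * ab n)) *
      Real.exp (-(√b * a / 2 * ab n)) := by
    rw [← Real.exp_add]
    refine Real.exp_le_exp.2 ?_
    nlinarith [mul_le_mul_of_nonneg_left hv.1 (mul_pos (Real.sqrt_pos.2 hb) h0).le]
  have h5 : ab n ^ (k + 1) * Real.exp (-(√b * a / 2 * ab n)) ≤
      (k + 1).factorial / (√b * a / 2) ^ (k + 1) := by
    rw [div_le_iff₀ (by positivity), mul_pow] at h3
    rw [Real.exp_neg, ← div_eq_mul_inv, div_le_div_iff₀ (Real.exp_pos _) (by positivity)]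
    linarith
  calc ab n ^ k * kB b (ab n * v)
      ≤ ab n ^ k * (C * ((1 + |a'|) * ab n) * (Real.exp (-(√b * a / 2 * ab n)) *
        Real.exp (-(√b * a / 2 * ab n)))) := by
        refine mul_le_mul_of_nonneg_left ((h b _ hb.le (mul_pos h0 hv0)).trans ?_) (by positivity)
        gcongr
    _ = C * (1 + |a'|) * (ab n ^ (k + 1) * Real.exp (-(√b * a / 2 * ab n))) *
        Real.exp (-(√b * a / 2 * ab n)) := by ring
    _ ≤ _ := mul_le_mul_of_nonneg_right (mul_le_mul_of_nonneg_left h5 (by positivity))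
        (Real.exp_pos _).le

/-- the Fourier series without constant term -/
noncomputable def Ser (T : O → ℂ) (b : ℝ) (z : ℂ) (v : ℝ) : ℂ :=
  ∑' n : O, T n / ab n * (kB b (ab n * v) : ℝ) * ex (toC n * z / (toC lam * 9))

theorem Ser_bound {T : O → ℂ} {b C a : ℝ} (hb : 0 < b) (hT : ∀ n, n ≠ 0 → ‖T n‖ ≤ C * ab n)
    (ha : 0 < a) (a' : ℝ) (k : ℕ) : ∃ u : O → ℝ, Summable u ∧ ∀ n : O, ∀ v ∈ Icc a a',
      ‖T n / ab n * (kB b (ab n * v) : ℝ)‖ * ab n ^ k ≤ u n := by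
  obtain ⟨u, h1, h2⟩ := kB_ab_le (a' := a') hb ha k
  refine ⟨fun n => |C| * |u n|, h1.abs.mul_left _, fun n v hv => ?_⟩
  rcases eq_or_ne n 0 with rfl | hn
  · have : ab 0 = 0 := by simp [ab]
    simp only [this, ofReal_zero, div_zero, zero_mul, norm_zero]
    positivity
  have h0 := ab_pos hn
  have h3 := kB_pos hb.le (mul_pos h0 (ha.trans_le hv.1))
  rw [norm_mul, norm_div, norm_real, norm_real, Real.norm_of_nonneg h0.le,
    Real.norm_of_nonneg h3.le, mul_assoc, mul_comm (kB _ _)]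
  refine mul_le_mul ?_ ((h2 n hn v hv).trans (le_abs_self _)) (by positivity) (abs_nonneg _)
  rw [div_le_iff₀ h0]
  exact (hT n hn).trans (mul_le_mul_of_nonneg_right (le_abs_self _) h0.le)

theorem Ser_summable {T : O → ℂ} {b C v : ℝ} (hb : 0 < b) (hT : ∀ n, n ≠ 0 → ‖T n‖ ≤ C * ab n)
    (hv : 0 < v) : Summable fun n : O => ‖T n / ab n * (kB b (ab n * v) : ℝ)‖ := by
  obtain ⟨u, h1, h2⟩ := Ser_bound hb hT hv v 0
  exact h1.of_nonneg_of_le (fun _ => norm_nonneg _) fun n => by simpa using h2 n v ⟨le_rfl, le_rfl⟩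

theorem continuousOn_Ser {T : O → ℂ} {b C : ℝ} (hb : 0 < b)
    (hT : ∀ n, n ≠ 0 → ‖T n‖ ≤ C * ab n) :
    ContinuousOn (fun w : ℂ × ℝ => Ser T b w.1 w.2) {w | 0 < w.2} := by
  rintro ⟨z, v⟩ hv
  have hv' : 0 < v := hv
  obtain ⟨u, h1, h2⟩ := Ser_bound hb hT (half_pos hv') (2 * v) 0
  have h3 : ContinuousOn (fun w : ℂ × ℝ => Ser T b w.1 w.2) (univ ×ˢ Icc (v / 2) (2 * v)) := by
    refine continuousOn_tsum (fun n => ?_) h1 fun n w hw => ?_
    · rcases eq_or_ne n 0 with rfl | hn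
      · have : ab 0 = 0 := by simp [ab]
        simpa [this] using continuousOn_const
      refine ContinuousOn.mul (continuousOn_const.mul (continuous_ofReal.comp_continuousOn
        ((continuousOn_kB hb.le).comp (by fun_prop) fun w hw => ?_))) ?_
      · exact mul_pos (ab_pos hn) ((half_pos hv').trans_le hw.2.1)
      · unfold ex
        fun_prop
    · rw [norm_mul, norm_ex]
      simpa using h2 n w.2 hw.2
  exact (h3.continuousAt (prod_mem_nhds univ_mem
    (Icc_mem_nhds (by linarith) (by linarith)))).continuousWithinAt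

theorem Ser_odd {T : O → ℂ} {b C : ℝ} (hb : 0 < b) (hT : ∀ n, n ≠ 0 → ‖T n‖ ≤ C * ab n)
    (x : ℂ) {D : ℝ → ℂ} {D0 : ℂ} {V : ℝ → ℝ} {V0 : ℝ} (hD : Tendsto D (𝓝[>] 0) (𝓝 D0))
    (hV : Tendsto V (𝓝[>] 0) (𝓝 V0)) (h0 : 0 < V0) :
    Tendsto (fun t : ℝ => (Ser T b (x + t * D t) (V t) - Ser T b (x - t * D t) (V t)) / t)
      (𝓝[>] 0) (𝓝 (∑' n : O, T n / ab n * (kB b (ab n * V0) : ℝ) *
        ex (toC n * x / (toC lam * 9)) *
          (8 * Real.pi * I * (toC n / (toC lam * 9) * D0).re))) := by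
  obtain ⟨u, h1, h2⟩ := Ser_bound hb hT (half_pos h0) (2 * V0) 1
  have hI := hV.eventually (Icc_mem_nhds (a := V0 / 2) (b := 2 * V0) (by linarith) (by linarith))
  have h3 := odd_lim (F := fun n t => T n / ab n * (kB b (ab n * V t) : ℝ) *
    ex (toC n * x / (toC lam * 9))) (μ := fun n => toC n / (toC lam * 9))
    (F0 := fun n => T n / ab n * (kB b (ab n * V0) : ℝ) * ex (toC n * x / (toC lam * 9)))
    (h1.div_const ‖toC lam * 9‖) (fun n => ?_) hD ?_
  · refine h3.congr' ?_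
    filter_upwards [hI] with t ht
    have hs := Ser_summable hb hT ((half_pos h0).trans_le ht.1)
    have hs' : ∀ z, Summable fun n : O =>
        T n / ab n * (kB b (ab n * V t) : ℝ) * ex (toC n * z / (toC lam * 9)) := fun z =>
      hs.of_norm_bounded fun n => by rw [norm_mul, norm_ex, mul_one]
    rw [Ser, Ser, ← (hs' _).tsum_sub (hs' _), ← tsum_div_const]
    refine tsum_congr fun n => ?_
    rw [show toC n * (x + t * D t) / (toC lam * 9) =
        toC n * x / (toC lam * 9) + toC n / (toC lam * 9) * (t * D t) by ring,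
      show toC n * (x - t * D t) / (toC lam * 9) =
        toC n * x / (toC lam * 9) + -(toC n / (toC lam * 9) * (t * D t)) by ring, ex_add, ex_add]
    ring
  · rcases eq_or_ne n 0 with rfl | hn
    · have : ab 0 = 0 := by simp [ab]
      simp [this]
    refine Tendsto.mul_const _ (Tendsto.const_mul _ ((continuous_ofReal.tendsto _).comp ?_))
    exact ((continuousOn_kB hb.le).continuousAt (Ioi_mem_nhds (mul_pos (ab_pos hn) h0))).tendsto.comp
      (hV.const_mul _)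
  · filter_upwards [hI] with t ht n
    rw [norm_mul, norm_ex, mul_one, norm_div (toC n), ← mul_div_assoc]
    exact div_le_div_of_nonneg_right (by simpa [ab] using h2 n _ ht) (norm_nonneg _)

/-- the summation formula from the transformation law -/
theorem vor_of_cov {T T' : O → ℂ} {b C : ℝ} (hb : 0 < b) (hT : ∀ n, n ≠ 0 → ‖T n‖ ≤ C * ab n)
    (hT' : ∀ n, n ≠ 0 → ‖T' n‖ ≤ C * ab n) {α γ δ : O} (hγ : γ ≠ 0) {κ : ℂ} {c c' : ℝ → ℂ}
    {v : ℝ} (hv : 0 < v) (h : ∀ ζ : ℂ, c (v / (N γ * (‖ζ‖ ^ 2 + v ^ 2))) +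
      Ser T b (toC α / toC γ - conj ζ / (toC γ ^ 2 * ((‖ζ‖ ^ 2 + v ^ 2 : ℝ) : ℂ)))
        (v / (N γ * (‖ζ‖ ^ 2 + v ^ 2))) = κ * (c' v + Ser T' b (-(toC δ / toC γ) + ζ) v)) :
    ∑' n : O, ang n * T n * el (n * α) (9 * γ) * (kB b (ab n / (N γ * v)) : ℝ) =
      ang γ ^ 2 * κ * ((N γ * v ^ 2 : ℝ) : ℂ) *
        ∑' n : O, conj (ang n) * T' n * el (-(n * δ)) (9 * γ) * (kB b (ab n * v) : ℝ) := by
  have hN : (0 : ℝ) < N γ := one_pos.trans_le (one_le_N hγ)
  have hγ' := toC_ne_zero hγ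
  have hl : toC lam ≠ 0 := toC_ne_zero prime_lam.ne_zero
  have t0 : Tendsto (fun t : ℝ => t) (𝓝[>] 0) (𝓝 0) := tendsto_nhdsWithin_of_tendsto_nhds tendsto_id
  have t1 : Tendsto (fun t : ℝ => t ^ 2 + v ^ 2) (𝓝[>] 0) (𝓝 (v ^ 2)) := by
    simpa using (t0.pow 2).add_const (v ^ 2)
  let F : O → ℂ := fun n => T n / ab n * (kB b (ab n * (v / (N γ * v ^ 2))) : ℝ) *
    ex (toC n * (toC α / toC γ) / (toC lam * 9))
  let F' : O → ℂ := fun n => T' n / ab n * (kB b (ab n * v) : ℝ) *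
    ex (toC n * -(toC δ / toC γ) / (toC lam * 9))
  have key : ∀ η : ℂ, ‖η‖ = 1 → -∑' n : O, F n * (8 * Real.pi * I *
      (toC n / (toC lam * 9) * (conj η / (toC γ ^ 2 * ((v ^ 2 : ℝ) : ℂ)))).re) =
      κ * ∑' n : O, F' n * (8 * Real.pi * I * (toC n / (toC lam * 9) * η).re) := fun η hη => by
    have k1 := (Ser_odd hb hT (toC α / toC γ)
      (D := fun t => conj η / (toC γ ^ 2 * ((t ^ 2 + v ^ 2 : ℝ) : ℂ)))
      (V := fun t => v / (N γ * (t ^ 2 + v ^ 2)))
      (tendsto_const_nhds.div (((continuous_ofReal.tendsto _).comp t1).const_mul _)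
        (mul_ne_zero (pow_ne_zero 2 hγ') (ofReal_ne_zero.2 (by positivity))))
      (tendsto_const_nhds.div (t1.const_mul _) (by positivity)) (by positivity)).neg
    have k2 := (Ser_odd hb hT' (-(toC δ / toC γ)) (D := fun _ => η) (V := fun _ => v)
      tendsto_const_nhds tendsto_const_nhds hv).const_mul κ
    refine tendsto_nhds_unique k1 (k2.congr' (eventually_nhdsWithin_of_forall fun t ht => ?_))
    have ht' : 0 < t := ht
    have e1 := h (t * η)
    have e2 := h (-(t * η))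
    rw [norm_neg, map_neg, neg_div, sub_neg_eq_add, ← sub_eq_add_neg] at e2
    rw [norm_mul, hη, mul_one, norm_real, Real.norm_of_nonneg ht'.le, map_mul, conj_ofReal,
      mul_div_assoc] at e1 e2
    dsimp only
    linear_combination (e2 - e1) / t
  have sF : ∀ {T : O → ℂ} (_ : ∀ n, n ≠ 0 → ‖T n‖ ≤ C * ab n) {V : ℝ} (_ : 0 < V) (x M : ℂ),
      Summable fun n : O => T n / ab n * (kB b (ab n * V) : ℝ) * ex (toC n * x / (toC lam * 9)) *
        (8 * Real.pi * I * (toC n / (toC lam * 9) * M).re) := fun {T} hT {V} hV x M => by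
    obtain ⟨u, h1, h2⟩ := Ser_bound hb hT hV V 1
    refine (h1.mul_left (‖8 * (Real.pi : ℂ) * I‖ * (‖M‖ / ‖toC lam * 9‖))).of_norm_bounded
      fun n => ?_
    have h3 : ‖(((toC n / (toC lam * 9) * M).re : ℝ) : ℂ)‖ ≤ ab n * (‖M‖ / ‖toC lam * 9‖) := by
      rw [norm_real]
      refine (abs_re_le_norm _).trans (le_of_eq ?_)
      rw [norm_mul, norm_div, ab]
      ring
    have h4 := h2 n V ⟨le_rfl, le_rfl⟩
    rw [norm_mul, norm_mul, norm_ex, mul_one, norm_mul (8 * (Real.pi : ℂ) * I)]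
    rw [pow_one] at h4
    calc _ ≤ ‖T n / ab n * (kB b (ab n * V) : ℝ)‖ *
          (‖8 * (Real.pi : ℂ) * I‖ * (ab n * (‖M‖ / ‖toC lam * 9‖))) := by gcongr
      _ = ‖8 * (Real.pi : ℂ) * I‖ * (‖M‖ / ‖toC lam * 9‖) *
          (‖T n / ab n * (kB b (ab n * V) : ℝ)‖ * ab n) := by ring
      _ ≤ _ := by gcongr
  have hV0 : 0 < v / (N γ * v ^ 2) := by positivity
  have k1 := key 1 (by simp)
  have k2 := key I (by simp)
  have hc : conj (toC lam) = -toC lam := by simp [toC_lam]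
  have a1 : ∑' n : O, F n * (8 * Real.pi * I * (toC n / (toC lam * 9) *
      (conj 1 / (toC γ ^ 2 * ((v ^ 2 : ℝ) : ℂ)))).re) + I * ∑' n : O, F n * (8 * Real.pi * I *
      (toC n / (toC lam * 9) * (conj I / (toC γ ^ 2 * ((v ^ 2 : ℝ) : ℂ)))).re) =
      8 * Real.pi * I / (toC lam * 9) / (toC γ ^ 2 * ((v ^ 2 : ℝ) : ℂ)) *
      ∑' n : O, ang n * T n * el (n * α) (9 * γ) * (kB b (ab n / (N γ * v)) : ℝ) := by
    rw [← tsum_mul_left, ← tsum_mul_left,
      ← (sF hT hV0 _ _).tsum_add ((sF hT hV0 _ _).mul_left I)]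
    refine tsum_congr fun n => ?_
    have e := re_add_im (toC n / (toC lam * 9) * (1 / (toC γ ^ 2 * ((v ^ 2 : ℝ) : ℂ))))
    have e2 : (toC n / (toC lam * 9) * (conj I / (toC γ ^ 2 * ((v ^ 2 : ℝ) : ℂ)))).re =
        (toC n / (toC lam * 9) * (1 / (toC γ ^ 2 * ((v ^ 2 : ℝ) : ℂ)))).im := by
      rw [conj_I, show toC n / (toC lam * 9) * (-I / (toC γ ^ 2 * ((v ^ 2 : ℝ) : ℂ))) =
        -(toC n / (toC lam * 9) * (1 / (toC γ ^ 2 * ((v ^ 2 : ℝ) : ℂ))) * I) by ring,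
        neg_re, mul_I_re, neg_neg]
    have e3 : el (n * α) (9 * γ) = ex (toC n * (toC α / toC γ) / (toC lam * 9)) := by
      rw [el_eq_ex, map_mul, map_mul, map_ofNat]
      congr 1
      field_simp
    have e4 : ab n / (N γ * v) = ab n * (v / (N γ * v ^ 2)) := by field_simp
    rw [e2, e3, e4, map_one, ang]
    linear_combination F n * (8 * Real.pi * I) * e
  have a2 : ∑' n : O, F' n * (8 * Real.pi * I * (toC n / (toC lam * 9) * 1).re) +
      I * ∑' n : O, F' n * (8 * Real.pi * I * (toC n / (toC lam * 9) * I).re) =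
      -(8 * Real.pi * I / (toC lam * 9)) *
      ∑' n : O, conj (ang n) * T' n * el (-(n * δ)) (9 * γ) * (kB b (ab n * v) : ℝ) := by
    rw [← tsum_mul_left, ← tsum_mul_left,
      ← (sF hT' hv _ _).tsum_add ((sF hT' hv _ _).mul_left I)]
    refine tsum_congr fun n => ?_
    have e : (((toC n / (toC lam * 9)).re : ℝ) : ℂ) - (toC n / (toC lam * 9)).im * I =
        -(conj (toC n) / (toC lam * 9)) := by
      have := re_add_im (conj (toC n / (toC lam * 9)))
      rw [conj_re, conj_im, map_div₀, map_mul, hc, map_ofNat] at this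
      push_cast at this
      rw [neg_mul (toC lam), div_neg] at this
      linear_combination this
    have e3 : el (-(n * δ)) (9 * γ) = ex (toC n * -(toC δ / toC γ) / (toC lam * 9)) := by
      rw [el_eq_ex, map_neg, map_mul, map_mul, map_ofNat]
      congr 1
      field_simp
    rw [e3, mul_one, mul_I_re, ang, map_div₀, conj_ofReal]
    push_cast
    linear_combination F' n * (8 * Real.pi * I) * e
  have a3 : ang γ ^ 2 * ((N γ * v ^ 2 : ℝ) : ℂ) = toC γ ^ 2 * ((v ^ 2 : ℝ) : ℂ) := by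
    have := ab_neC hγ
    rw [ang, div_pow, ofReal_mul, ofReal_natCast, ← ab_sqC]
    field_simp
  have a4 : 8 * (Real.pi : ℂ) * I / (toC lam * 9) ≠ 0 :=
    div_ne_zero (mul_ne_zero (mul_ne_zero (by norm_num) (ofReal_ne_zero.2 Real.pi_ne_zero))
      I_ne_zero) (mul_ne_zero hl (by norm_num))
  have a5 : toC γ ^ 2 * ((v ^ 2 : ℝ) : ℂ) ≠ 0 :=
    mul_ne_zero (pow_ne_zero 2 hγ') (ofReal_ne_zero.2 (by positivity))
  rw [mul_right_comm (ang γ ^ 2), a3]
  refine mul_left_cancel₀ (div_ne_zero a4 a5) ?_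
  rw [← a1, ← mul_assoc, ← mul_assoc, div_mul_cancel₀ _ a5]
  linear_combination -k1 - I * k2 - κ * a2

end Pool.Agent.P.MP_26a8c3_nt.QK
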