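import Pool.Agent.P.MP_26a8c3_nt.QK.K

/-!
Sums of the elementary kernel over a countable family.
-/

namespace Pool.Agent.P.MP_26a8c3_nt.QK

open MeasureTheory Set Real Filter Topology

variable {ι : Type*}

/-- the smoothed sum of the coefficients -/
noncomputable def aa (N : ι → ℝ) (g : ι → ℂ) (B y v : ℝ) : ℂ :=
  ∑' c, g c * ((y / N c * Kv B v (N c / y) : ℝ) : ℂ)

/-- the normalised sum -/
noncomputable def ff (N : ι → ℝ) (g : ι → ℂ) (B y v : ℝ) : ℂ :=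
  ((y ^ (-(4 / 3) : ℝ) : ℝ) : ℂ) * aa N g B y v

/-- polynomial growth of the coefficients -/
structure Adm (N : ι → ℝ) (g : ι → ℂ) : Prop where
  pos : ∀ c, g c ≠ 0 → 0 < N c
  sum : Summable fun c => ‖g c‖ / N c ^ 4

/-- the square of the norm on an interval -/
noncomputable def Sq (a b : ℝ) (f : ℝ → ℂ) : ℝ := ∫ v in Icc a b, ‖f v‖ ^ 2

variable {N : ι → ℝ} {g g' : ι → ℂ} {B y v w : ℝ}

theorem exp_neg_le {x : ℝ} (hx : 0 < x) : exp (-x) ≤ 6 / x ^ 3 := by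
  have h := Real.pow_div_factorial_le_exp x hx.le 3
  rw [exp_neg, ← one_div, div_le_div_iff₀ (exp_pos _) (by positivity)]
  norm_num [Nat.factorial] at h
  linarith

theorem Kv_le_pow (hB : 0 ≤ B) (hv : 0 < v) {t : ℝ} (ht : 0 < t) :
    Kv B v t ≤ 6 / (v ^ 2 * t ^ 3) := by
  refine (Kv_le hB hv ht).trans ((mul_le_mul_of_nonneg_left (exp_neg_le (mul_pos hv ht))
    hv.le).trans (le_of_eq ?_))
  field_simp

theorem term_le (h : Adm N g) (hB : 0 ≤ B) (hy : 0 < y) (hv : 0 < v) (c : ι) :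
    ‖g c * ((y / N c * Kv B v (N c / y) : ℝ) : ℂ)‖ ≤ 6 * y ^ 4 / v ^ 2 * (‖g c‖ / N c ^ 4) := by
  rcases eq_or_ne (g c) 0 with h0 | h0
  · simp [h0]
  have hN := h.pos c h0
  rw [norm_mul, Complex.norm_real, Real.norm_of_nonneg (mul_pos (by positivity) (Kv_pos hv)).le]
  calc ‖g c‖ * (y / N c * Kv B v (N c / y))
      ≤ ‖g c‖ * (y / N c * (6 / (v ^ 2 * (N c / y) ^ 3))) := by
        gcongr
        exact Kv_le_pow hB hv (by positivity)
    _ = _ := by field_simp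

theorem Adm.summable (h : Adm N g) (hB : 0 ≤ B) (hy : 0 < y) (hv : 0 < v) :
    Summable fun c => g c * ((y / N c * Kv B v (N c / y) : ℝ) : ℂ) :=
  (h.sum.mul_left _).of_norm_bounded (term_le h hB hy hv)

theorem Adm.norm_aa (h : Adm N g) (hB : 0 ≤ B) (hy : 0 < y) (hv : 0 < v) :
    ‖aa N g B y v‖ ≤ 6 * y ^ 4 / v ^ 2 * ∑' c, ‖g c‖ / N c ^ 4 := by
  rw [← tsum_mul_left]
  exact tsum_of_norm_bounded (h.sum.mul_left _).hasSum (term_le h hB hy hv)

theorem Adm.continuousOn_aa (h : Adm N g) (hB : 0 ≤ B) :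
    ContinuousOn (fun p : ℝ × ℝ => aa N g B p.1 p.2) (Ioi 0 ×ˢ Ioi 0) := by
  rintro ⟨y, v⟩ ⟨hy, hv⟩
  have hy' : 0 < y := hy
  have hv' : 0 < v := hv
  have h1 : ContinuousOn (fun p : ℝ × ℝ => aa N g B p.1 p.2) (Ioo 0 (2 * y) ×ˢ Ioi (v / 2)) := by
    refine continuousOn_tsum (fun c => ?_) (h.sum.mul_left (6 * (2 * y) ^ 4 / (v / 2) ^ 2)) ?_
    · rcases eq_or_ne (g c) 0 with h0 | h0
      · simpa [h0] using continuousOn_const
      refine continuousOn_const.mul (Complex.continuous_ofReal.comp_continuousOn ?_)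
      unfold Kv
      have hN := (h.pos c h0).ne'
      refine ContinuousOn.mul (by fun_prop) (ContinuousOn.mul (by fun_prop) ?_)
      refine continuous_exp.comp_continuousOn (ContinuousOn.neg (ContinuousOn.mul (by fun_prop) ?_))
      have h2 : ContinuousOn (fun p : ℝ × ℝ => N c / p.1) (Ioo 0 (2 * y) ×ˢ Ioi (v / 2)) :=
        continuousOn_const.div (by fun_prop) fun p hp => hp.1.1.ne'
      exact h2.add (continuousOn_const.div h2 fun p hp => div_ne_zero hN hp.1.1.ne')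
    · rintro c ⟨y', v'⟩ ⟨⟨k1, k2⟩, k3⟩
      have k4 : v / 2 < v' := k3
      have k5 : 0 < y' := k1
      have k6 : y' < 2 * y := k2
      refine (term_le h hB k5 (by linarith) c).trans ?_
      gcongr
  refine (h1.continuousAt (prod_mem_nhds (Ioo_mem_nhds hy' ?_) (Ioi_mem_nhds ?_))).continuousWithinAt
  · linarith
  · linarith

theorem Adm.continuousOn_ff (h : Adm N g) (hB : 0 ≤ B) :
    ContinuousOn (fun p : ℝ × ℝ => ff N g B p.1 p.2) (Ioi 0 ×ˢ Ioi 0) := by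
  refine ContinuousOn.mul (Complex.continuous_ofReal.comp_continuousOn ?_) (h.continuousOn_aa hB)
  exact continuousOn_fst.rpow_const fun p hp => Or.inl (ne_of_gt hp.1)

theorem Adm.cont_ff (h : Adm N g) (hB : 0 ≤ B) (hy : 0 < y) :
    ContinuousOn (ff N g B y) (Ioi 0) :=
  (h.continuousOn_ff hB).comp (continuousOn_const.prodMk continuousOn_id) fun _ hv => ⟨hy, hv⟩

theorem Adm.norm_ff (h : Adm N g) (hB : 0 ≤ B) {a : ℝ} (ha : 0 < a) :
    ∃ C, 0 ≤ C ∧ ∀ y v, 0 < y → a ≤ v → ‖ff N g B y v‖ ≤ C * y ^ (8 / 3 : ℝ) := by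
  have h0 : 0 ≤ ∑' c, ‖g c‖ / N c ^ 4 := tsum_nonneg fun c => by positivity
  refine ⟨6 / a ^ 2 * ∑' c, ‖g c‖ / N c ^ 4, by positivity, fun y v hy hv => ?_⟩
  rw [ff, norm_mul, Complex.norm_real, Real.norm_of_nonneg (by positivity)]
  calc y ^ (-(4 / 3) : ℝ) * ‖aa N g B y v‖
      ≤ y ^ (-(4 / 3) : ℝ) * (6 * y ^ 4 / a ^ 2 * ∑' c, ‖g c‖ / N c ^ 4) := by
        refine mul_le_mul_of_nonneg_left ((h.norm_aa hB hy (ha.trans_le hv)).trans ?_)
          (by positivity)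
        gcongr
    _ = _ := by
        rw [show (8 / 3 : ℝ) = -(4 / 3) + (4 : ℕ) by norm_num, rpow_add hy, rpow_natCast]
        ring

theorem sym_int {r : ℝ} (hr : 0 < r) (B v w : ℝ) :
    ∫ y in Ioi (0 : ℝ), Kv B v (r / y) * Kv B w y / y =
      ∫ y in Ioi (0 : ℝ), Kv B w (r / y) * Kv B v y / y := by
  have h1 := integral_comp_mul_left_Ioi (fun y : ℝ => Kv B v (r / y) * Kv B w y / y) 0 hr
  have h2 := integral_comp_rpow_Ioi
    (fun x : ℝ => Kv B v (r / (r * x)) * Kv B w (r * x) / (r * x)) (p := -1) (by norm_num)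
  rw [mul_zero, smul_eq_mul] at h1
  rw [(inv_mul_eq_iff_eq_mul₀ hr.ne').1 h1.symm, ← h2, ← integral_const_mul]
  refine setIntegral_congr_fun measurableSet_Ioi fun x hx => ?_
  have hx' : 0 < x := hx
  simp only [smul_eq_mul]
  rw [rpow_neg_one, show (-1 - 1 : ℝ) = -(2 : ℕ) by norm_num, rpow_neg hx'.le, rpow_natCast,
    show r / (r * x⁻¹) = x by field_simp, show r * x⁻¹ = r / x by field_simp]
  field_simp
  simp

variable [Countable ι]

theorem aa_int (h : Adm N g) (hB : 0 ≤ B) {Y : ℝ} (hY : 0 < Y) (hv : 0 < v) (hw : 0 < w) :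
    ∫ y in Ioi (0 : ℝ), aa N g B (Y * y) v * ((Kv B w y / y ^ 2 : ℝ) : ℂ) =
      ∑' c, g c * ((Y / N c * ∫ y in Ioi (0 : ℝ), Kv B v (N c / Y / y) * Kv B w y / y : ℝ) : ℂ) := by
  have hi := integrableOn_Kv (s := 2) (by norm_num) hB hw
  let F : ι → ℝ → ℂ := fun c y =>
    g c * ((Y * y / N c * Kv B v (N c / (Y * y)) : ℝ) : ℂ) * ((Kv B w y / y ^ 2 : ℝ) : ℂ)
  have hb : ∀ c, ∀ y ∈ Ioi (0 : ℝ), ‖F c y‖ ≤
      6 * Y ^ 4 / v ^ 2 * (‖g c‖ / N c ^ 4) * (y ^ (2 : ℝ) * Kv B w y) := fun c y hy => by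
    have hy' : 0 < y := hy
    have := (Kv_pos (B := B) (t := y) hw)
    simp only [F]
    rw [norm_mul, Complex.norm_real, Real.norm_of_nonneg (by positivity)]
    refine (mul_le_mul_of_nonneg_right (term_le h hB (mul_pos hY hy') hv c)
      (by positivity)).trans (le_of_eq ?_)
    rw [rpow_two]
    field_simp
  have hF : ∀ c, Integrable (F c) (volume.restrict (Ioi 0)) := fun c => by
    refine (hi.const_mul _).mono' ?_ ((ae_restrict_iff' measurableSet_Ioi).2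
      (Eventually.of_forall (hb c)))
    refine Measurable.aestronglyMeasurable ?_
    simp only [F, Kv]
    fun_prop
  have hs : Summable fun c => ∫ y in Ioi (0 : ℝ), ‖F c y‖ := by
    refine ((h.sum.mul_left (6 * Y ^ 4 / v ^ 2)).mul_right
      (∫ y in Ioi (0 : ℝ), y ^ (2 : ℝ) * Kv B w y)).of_nonneg_of_le
      (fun c => integral_nonneg fun _ => norm_nonneg _) fun c => ?_
    rw [← integral_const_mul]
    exact setIntegral_mono_on (hF c).norm (hi.const_mul _) measurableSet_Ioi (hb c)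
  have h1 := integral_tsum_of_summable_integral_norm hF hs
  simp only [F, tsum_mul_right] at h1
  unfold aa
  rw [← h1]
  refine tsum_congr fun c => ?_
  rcases eq_or_ne (g c) 0 with h0 | h0
  · simp [h0]
  rw [← integral_const_mul, ← integral_complex_ofReal, ← integral_const_mul]
  refine setIntegral_congr_fun measurableSet_Ioi fun y hy => ?_
  have hy' : 0 < y := hy
  have hN := h.pos c h0
  rw [mul_assoc, ← Complex.ofReal_mul, div_div (N c)]
  congr 2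
  field_simp

/-- the symmetry which determines the shape -/
theorem aa_sym (h : Adm N g) (hB : 0 ≤ B) {Y : ℝ} (hY : 0 < Y) (hv : 0 < v) (hw : 0 < w) :
    ∫ y in Ioi (0 : ℝ), ff N g B (Y * y) v * ((y ^ (-(2 / 3) : ℝ) * Kv B w y : ℝ) : ℂ) =
      ∫ y in Ioi (0 : ℝ), ff N g B (Y * y) w * ((y ^ (-(2 / 3) : ℝ) * Kv B v y : ℝ) : ℂ) := by
  have e : ∀ v w, ∫ y in Ioi (0 : ℝ),
      ff N g B (Y * y) v * ((y ^ (-(2 / 3) : ℝ) * Kv B w y : ℝ) : ℂ) =
      ((Y ^ (-(4 / 3) : ℝ) : ℝ) : ℂ) *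
        ∫ y in Ioi (0 : ℝ), aa N g B (Y * y) v * ((Kv B w y / y ^ 2 : ℝ) : ℂ) := fun v w => by
    rw [← integral_const_mul]
    refine setIntegral_congr_fun measurableSet_Ioi fun y hy => ?_
    have hy' : 0 < y := hy
    have k : y ^ (-(4 / 3) : ℝ) * y ^ (-(2 / 3) : ℝ) = (y ^ 2)⁻¹ := by
      rw [← rpow_add hy', show (-(4 / 3) + -(2 / 3) : ℝ) = -(2 : ℕ) by norm_num, rpow_neg hy'.le,
        rpow_natCast]
    simp only [ff]
    rw [mul_rpow hY.le hy'.le, div_eq_mul_inv (Kv _ _ _), ← k]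
    push_cast
    ring
  rw [e, e, aa_int h hB hY hv hw, aa_int h hB hY hw hv]
  congr 2
  funext c
  rcases eq_or_ne (g c) 0 with h0 | h0
  · simp [h0]
  rw [sym_int (div_pos (h.pos c h0) hY)]

end Pool.Agent.P.MP_26a8c3_nt.QK
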