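import Pool.Agent.P.MP_26a8c3_nt.QK.Aa

/-!
The shape of the limit of the normalised sums.
-/

namespace Pool.Agent.P.MP_26a8c3_nt.QK

open MeasureTheory Set Real Filter Topology

variable {ι : Type*} {N : ι → ℝ} {g g' : ι → ℂ} {B a b : ℝ} {f h : ℝ → ℂ}

/-- the normalised sums converge to `A` times the shape -/
def Lim (N : ι → ℝ) (g : ι → ℂ) (B : ℝ) (A : ℂ) : Prop :=
  ∀ a b : ℝ, 0 < a →
    Tendsto (fun y => Sq a b fun v => ff N g B y v - A * kB B v) atTop (𝓝 0)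

/-- the normalised sums form a Cauchy family -/
def Cau (N : ι → ℝ) (g : ι → ℂ) (B : ℝ) : Prop :=
  ∀ a b : ℝ, 0 < a →
    Tendsto (fun p : ℝ × ℝ => Sq a b fun v => ff N g B p.1 v - ff N g B p.2 v)
      (atTop ×ˢ atTop) (𝓝 0)

theorem Sq_nonneg : 0 ≤ Sq a b f := integral_nonneg fun _ => by positivity

theorem int_Sq (ha : 0 < a) (hf : ContinuousOn f (Ioi 0)) :
    IntegrableOn (fun v => ‖f v‖ ^ 2) (Icc a b) :=
  ((hf.mono fun _ hv => ha.trans_le hv.1).norm.pow 2).integrableOn_Icc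

theorem Sq_congr (e : ∀ v ∈ Icc a b, ‖f v‖ = ‖h v‖) : Sq a b f = Sq a b h :=
  setIntegral_congr_fun measurableSet_Icc fun v hv => by simp only [e v hv]

theorem Sq_mul (c : ℂ) : Sq a b (fun v => c * f v) = ‖c‖ ^ 2 * Sq a b f := by
  simp only [Sq, norm_mul, mul_pow, integral_const_mul]

theorem norm_add_sq_le (x y : ℂ) : ‖x + y‖ ^ 2 ≤ 2 * ‖x‖ ^ 2 + 2 * ‖y‖ ^ 2 := by
  have := norm_add_le x y
  nlinarith [norm_nonneg (x + y), norm_nonneg x, norm_nonneg y, sq_nonneg (‖x‖ - ‖y‖)]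

theorem Sq_add_le (ha : 0 < a) (hf : ContinuousOn f (Ioi 0)) (hh : ContinuousOn h (Ioi 0)) :
    Sq a b (fun v => f v + h v) ≤ 2 * Sq a b f + 2 * Sq a b h := by
  rw [Sq, Sq, Sq, ← integral_const_mul, ← integral_const_mul,
    ← integral_add ((int_Sq ha hf).const_mul _) ((int_Sq ha hh).const_mul _)]
  exact integral_mono (int_Sq ha (hf.add hh))
    (((int_Sq ha hf).const_mul _).add ((int_Sq ha hh).const_mul _)) fun v => norm_add_sq_le _ _

theorem Sq_tri {k : ℝ → ℂ} (ha : 0 < a) (hf : ContinuousOn f (Ioi 0))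
    (hh : ContinuousOn h (Ioi 0)) (hk : ContinuousOn k (Ioi 0)) :
    Sq a b (fun v => f v - k v) ≤
      2 * Sq a b (fun v => f v - h v) + 2 * Sq a b (fun v => h v - k v) := by
  have := Sq_add_le (b := b) (f := fun v => f v - h v) (h := fun v => h v - k v) ha (hf.sub hh)
    (hh.sub hk)
  simpa using this

theorem Sq_symm : Sq a b (fun v => f v - h v) = Sq a b (fun v => h v - f v) :=
  Sq_congr fun _ _ => norm_sub_rev _ _

theorem Sq_mono {a' b' : ℝ} (ha : 0 < a') (h1 : a' ≤ a) (h2 : b ≤ b')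
    (hf : ContinuousOn f (Ioi 0)) : Sq a b f ≤ Sq a' b' f :=
  setIntegral_mono_set (int_Sq ha hf) (Eventually.of_forall fun _ => by positivity)
    (Icc_subset_Icc h1 h2).eventuallyLE

theorem Sq_le_of {C : ℝ} (hab : a ≤ b) (hf : ∀ v ∈ Icc a b, ‖f v‖ ^ 2 ≤ C) :
    Sq a b f ≤ C * (b - a) := by
  have := norm_setIntegral_le_of_norm_le_const (μ := volume) (s := Icc a b)
    (f := fun v => ‖f v‖ ^ 2) (C := C) (by simp) fun v hv => by
      rw [Real.norm_of_nonneg (by positivity)]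
      exact hf v hv
  rw [Real.volume_real_Icc_of_le hab] at this
  exact (le_abs_self _).trans this

theorem cont_kB (hB : 0 ≤ B) : ContinuousOn (fun v => (kB B v : ℂ)) (Ioi 0) :=
  Complex.continuous_ofReal.comp_continuousOn (continuousOn_kB hB)

theorem kB_lower (hB : 0 ≤ B) (ha : 0 < a) (b : ℝ) : ∃ c, 0 < c ∧ ∀ v ∈ Icc a b, c ≤ kB B v := by
  obtain ⟨c, hc, h⟩ := le_kB hB b
  refine ⟨c * a ^ (2 / 3 : ℝ), by positivity, fun v hv => le_trans ?_ (h v (ha.trans_le hv.1) hv.2)⟩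
  exact mul_le_mul_of_nonneg_left (rpow_le_rpow ha.le hv.1 (by norm_num)) hc.le

theorem Sq_kB_pos (hB : 0 ≤ B) (ha : 0 < a) (hab : a < b) : 0 < Sq a b fun v => (kB B v : ℂ) := by
  obtain ⟨c, hc, h⟩ := kB_lower hB ha b
  have h1 : ∫ _ in Icc a b, c ^ 2 ≤ Sq a b fun v => (kB B v : ℂ) := by
    refine setIntegral_mono_on (by simp) (int_Sq ha (cont_kB hB)) measurableSet_Icc fun v hv => ?_
    rw [Complex.norm_real, Real.norm_of_nonneg (hc.le.trans (h v hv))]
    exact pow_le_pow_left₀ hc.le (h v hv) 2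
  rw [setIntegral_const, Real.volume_real_Icc_of_le hab.le, smul_eq_mul] at h1
  exact (mul_pos (sub_pos.2 hab) (by positivity)).trans_le h1

theorem cs {μ : Measure ℝ} {p m : ℝ → ℝ} (hm : Integrable m μ) (h0 : 0 < ∫ y, m y ∂μ)
    (hh : AEStronglyMeasurable h μ) (h2 : Integrable (fun y => ‖h y‖ ^ 2 * m y) μ)
    (hp : ∀ᵐ y ∂μ, 0 ≤ p y ∧ p y ≤ m y) :
    ‖∫ y, h y * (p y : ℂ) ∂μ‖ ^ 2 ≤ (∫ y, m y ∂μ) * ∫ y, ‖h y‖ ^ 2 * m y ∂μ := by
  have h1 : Integrable (fun y => ‖h y‖ * m y) μ := by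
    refine (hm.add h2).mono' (hh.norm.mul hm.1) (hp.mono fun y hy => ?_)
    have := hy.1.trans hy.2
    rw [Real.norm_of_nonneg (by positivity), Pi.add_apply]
    nlinarith [mul_nonneg (sq_nonneg (‖h y‖ - 1)) this, mul_nonneg (norm_nonneg (h y)) this]
  have h3 : ‖∫ y, h y * (p y : ℂ) ∂μ‖ ≤ ∫ y, ‖h y‖ * m y ∂μ := by
    refine norm_integral_le_of_norm_le h1 (hp.mono fun y hy => ?_)
    rw [norm_mul, Complex.norm_real, Real.norm_of_nonneg hy.1]
    exact mul_le_mul_of_nonneg_left hy.2 (norm_nonneg _)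
  have h4 : ∀ t : ℝ, 2 * t * ∫ y, ‖h y‖ * m y ∂μ ≤
      t ^ 2 * ∫ y, m y ∂μ + ∫ y, ‖h y‖ ^ 2 * m y ∂μ := fun t => by
    rw [← integral_const_mul, ← integral_const_mul, ← integral_add (hm.const_mul _) h2]
    refine integral_mono_ae (h1.const_mul _) ((hm.const_mul _).add h2) (hp.mono fun y hy => ?_)
    have := hy.1.trans hy.2
    dsimp only
    nlinarith [mul_nonneg (sq_nonneg (‖h y‖ - t)) this]
  set M := ∫ y, m y ∂μ
  set e := ∫ y, ‖h y‖ * m y ∂μ
  have h5 := mul_le_mul_of_nonneg_left (h4 (e / M)) h0.le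
  have h6 : M * (2 * (e / M) * e) = 2 * e ^ 2 := by field_simp
  have h7 : M * ((e / M) ^ 2 * M) = e ^ 2 := by field_simp
  have h8 := pow_le_pow_left₀ (norm_nonneg _) h3 2
  rw [mul_add, h6, h7] at h5
  linarith

/-- the dominating weight -/
noncomputable def mw (B a b y : ℝ) : ℝ := b / a * (y ^ (-(2 / 3) : ℝ) * Kv B a y)

theorem int_mw (hB : 0 ≤ B) (ha : 0 < a) : IntegrableOn (mw B a b) (Ioi 0) :=
  (integrableOn_Kv (by norm_num) hB ha).const_mul _

theorem le_mw (hB : 0 ≤ B) (ha : 0 < a) {w y : ℝ} (hw : w ∈ Icc a b) (hy : 0 < y) :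
    0 ≤ y ^ (-(2 / 3) : ℝ) * Kv B w y ∧ y ^ (-(2 / 3) : ℝ) * Kv B w y ≤ mw B a b y := by
  have hw' := ha.trans_le hw.1
  refine ⟨(mul_pos (rpow_pos_of_pos hy _) (Kv_pos hw')).le, ?_⟩
  rw [mw, mul_left_comm]
  refine mul_le_mul_of_nonneg_left ?_ (rpow_pos_of_pos hy _).le
  rw [Kv, Kv, ← mul_assoc, div_mul_cancel₀ _ ha.ne']
  refine mul_le_mul hw.2 (exp_le_exp.2 (neg_le_neg ?_)) (exp_pos _).le (hw'.le.trans hw.2)
  exact mul_le_mul_of_nonneg_right hw.1 (by positivity)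

theorem Adm.int2 (h : Adm N g) (hB : 0 ≤ B) (ha : 0 < a) {Y : ℝ} (hY : 0 < Y) :
    Integrable (fun p : ℝ × ℝ => ‖ff N g B Y p.1 - ff N g B (Y * p.2) p.1‖ ^ 2 * mw B a b p.2)
      ((volume.restrict (Icc a b)).prod (volume.restrict (Ioi 0))) ∧
    ∀ v ∈ Icc a b, IntegrableOn
      (fun y => ‖ff N g B Y v - ff N g B (Y * y) v‖ ^ 2 * mw B a b y) (Ioi 0) := by
  obtain ⟨C, hC, hb⟩ := h.norm_ff hB ha
  let D : ℝ → ℝ := fun y => 2 * (C * Y ^ (8 / 3 : ℝ)) ^ 2 * mw B a b y +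
    2 * (C * Y ^ (8 / 3 : ℝ)) ^ 2 * (b / a * (y ^ (14 / 3 : ℝ) * Kv B a y))
  have hD : IntegrableOn D (Ioi 0) := ((int_mw hB ha).const_mul _).add
    (((integrableOn_Kv (by norm_num) hB ha).const_mul _).const_mul _)
  have hbd : ∀ v ∈ Icc a b, ∀ y ∈ Ioi (0 : ℝ),
      ‖‖ff N g B Y v - ff N g B (Y * y) v‖ ^ 2 * mw B a b y‖ ≤ D y := fun v hv y hy => by
    have hy' : 0 < y := hy
    have h0 := (le_mw hB ha hv hy').1.trans (le_mw hB ha hv hy').2
    have h1 := norm_add_sq_le (ff N g B Y v) (-ff N g B (Y * y) v)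
    have h2 := pow_le_pow_left₀ (norm_nonneg _) (hb Y v hY hv.1) 2
    have h3 := pow_le_pow_left₀ (norm_nonneg _) (hb (Y * y) v (mul_pos hY hy') hv.1) 2
    have h4 : (C * (Y * y) ^ (8 / 3 : ℝ)) ^ 2 * mw B a b y =
        (C * Y ^ (8 / 3 : ℝ)) ^ 2 * (b / a * (y ^ (14 / 3 : ℝ) * Kv B a y)) := by
      rw [mul_rpow hY.le hy'.le, mw, show (14 / 3 : ℝ) = 8 / 3 + 8 / 3 + -(2 / 3) by norm_num,
        rpow_add hy', rpow_add hy']
      ring
    rw [← sub_eq_add_neg, norm_neg] at h1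
    rw [Real.norm_of_nonneg (by positivity)]
    simp only [D]
    rw [mul_assoc 2 _ (b / a * _), ← h4]
    nlinarith [mul_le_mul_of_nonneg_right h1 h0, mul_le_mul_of_nonneg_right h2 h0,
      mul_le_mul_of_nonneg_right h3 h0]
  have hc : ContinuousOn (fun p : ℝ × ℝ => ff N g B Y p.1 - ff N g B (Y * p.2) p.1)
      (Icc a b ×ˢ Ioi 0) := by
    refine ContinuousOn.sub ((h.cont_ff hB hY).comp continuousOn_fst fun p hp =>
      ha.trans_le hp.1.1) ?_
    exact (h.continuousOn_ff hB).comp (f := fun p : ℝ × ℝ => (Y * p.2, p.1)) (by fun_prop)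
      fun p hp => ⟨mul_pos hY hp.2, ha.trans_le hp.1.1⟩
  have hm : Measurable (mw B a b) := by
    unfold mw Kv
    fun_prop
  constructor
  · have hD2 : Integrable (fun p : ℝ × ℝ => D p.2)
        ((volume.restrict (Icc a b)).prod (volume.restrict (Ioi 0))) := hD.comp_snd _
    rw [Measure.prod_restrict] at hD2 ⊢
    have hs : MeasurableSet (Icc a b ×ˢ Ioi (0 : ℝ)) := measurableSet_Icc.prod measurableSet_Ioi
    refine hD2.mono' (((hc.norm.pow 2).aestronglyMeasurable hs).mul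
      (hm.comp measurable_snd).aestronglyMeasurable) ?_
    exact (ae_restrict_iff' hs).2 (Eventually.of_forall fun p hp => hbd p.1 hp.1 p.2 hp.2)
  · intro v hv
    have hc' : ContinuousOn (fun y : ℝ => ff N g B Y v - ff N g B (Y * y) v) (Ioi 0) :=
      hc.comp (f := fun y : ℝ => (v, y)) (by fun_prop) fun y hy => ⟨hv, hy⟩
    refine hD.mono' (((hc'.norm.pow 2).aestronglyMeasurable measurableSet_Ioi).mul
      hm.aestronglyMeasurable) ?_
    exact (ae_restrict_iff' measurableSet_Ioi).2 (Eventually.of_forall (hbd v hv))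

/-- the averaged defect -/
noncomputable def EE (N : ι → ℝ) (g : ι → ℂ) (B a b Y : ℝ) : ℝ :=
  ∫ y in Ioi (0 : ℝ), (Sq a b fun v => ff N g B Y v - ff N g B (Y * y) v) * mw B a b y

theorem Adm.EE_eq (h : Adm N g) (hB : 0 ≤ B) (ha : 0 < a) {Y : ℝ} (hY : 0 < Y) :
    EE N g B a b Y = ∫ v in Icc a b, ∫ y in Ioi (0 : ℝ),
      ‖ff N g B Y v - ff N g B (Y * y) v‖ ^ 2 * mw B a b y := by
  rw [integral_integral_swap (h.int2 hB ha hY).1]
  simp only [EE, Sq, integral_mul_const]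

theorem Adm.bdd (h : Adm N g) (hB : 0 ≤ B) (hc : Cau N g B) (ha : 0 < a) (hab : a ≤ b) :
    ∃ M, ∀ y, 0 < y → Sq a b (ff N g B y) ≤ M := by
  obtain ⟨C, hC, hb⟩ := h.norm_ff hB ha
  have h1 := (hc a b ha).eventually (gt_mem_nhds one_pos)
  rw [prod_atTop_atTop_eq, eventually_atTop] at h1
  obtain ⟨⟨y1, y2⟩, h1⟩ := h1
  let Y := max 1 (max y1 y2)
  have hY : 0 < Y := one_pos.trans_le (le_max_left _ _)
  have h2 : ∀ y, 0 < y → y ≤ Y → Sq a b (ff N g B y) ≤ (C * Y ^ (8 / 3 : ℝ)) ^ 2 * (b - a) :=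
    fun y hy hy' => Sq_le_of hab fun v hv => pow_le_pow_left₀ (norm_nonneg _)
      ((hb y v hy hv.1).trans (by gcongr)) 2
  have h0 : 0 ≤ (C * Y ^ (8 / 3 : ℝ)) ^ 2 * (b - a) := mul_nonneg (by positivity) (by linarith)
  refine ⟨2 + 2 * ((C * Y ^ (8 / 3 : ℝ)) ^ 2 * (b - a)), fun y hy => ?_⟩
  rcases le_total y Y with k | k
  · linarith [h2 y hy k]
  · have h3 := Sq_add_le (b := b) (f := fun v => ff N g B y v - ff N g B Y v) ha
      ((h.cont_ff hB hy).sub (h.cont_ff hB hY)) (h.cont_ff hB hY)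
    have h4 := h1 (y, Y) ⟨((le_max_left _ _).trans (le_max_right _ _)).trans k,
      (le_max_right _ _).trans (le_max_right _ _)⟩
    simp only [sub_add_cancel] at h3 h4
    have h5 := h2 Y hY le_rfl
    change Sq a b (ff N g B y) ≤ _ at h3
    linarith

theorem Adm.EE_tendsto (h : Adm N g) (hB : 0 ≤ B) (hc : Cau N g B) (ha : 0 < a) (hab : a ≤ b) :
    Tendsto (EE N g B a b) atTop (𝓝 0) := by
  obtain ⟨M, hM⟩ := h.bdd hB hc ha hab
  have := tendsto_integral_filter_of_dominated_convergence (μ := volume.restrict (Ioi 0))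
    (l := atTop) (f := fun _ => (0 : ℝ))
    (F := fun Y y => (Sq a b fun v => ff N g B Y v - ff N g B (Y * y) v) * mw B a b y)
    (fun y => 4 * M * mw B a b y) ?_ ?_ ((int_mw hB ha).const_mul _) ?_
  · rwa [integral_zero] at this
  · filter_upwards [eventually_gt_atTop 0] with Y hY
    have := (h.int2 (b := b) hB ha hY).1.integral_prod_right.1
    simpa only [Sq, integral_mul_const] using this
  · filter_upwards [eventually_gt_atTop 0] with Y hY
    refine (ae_restrict_iff' measurableSet_Ioi).2 (Eventually.of_forall fun y hy => ?_)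
    have h0 := (le_mw hB ha ⟨le_rfl, hab⟩ hy).1.trans (le_mw hB ha ⟨le_rfl, hab⟩ hy).2
    rw [Real.norm_of_nonneg (mul_nonneg Sq_nonneg h0)]
    refine mul_le_mul_of_nonneg_right ?_ h0
    have h3 := Sq_add_le (b := b) (h := fun v => -ff N g B (Y * y) v) ha (h.cont_ff hB hY)
      (h.cont_ff hB (mul_pos hY hy)).neg
    rw [Sq_congr (f := fun v => -ff N g B (Y * y) v) fun v _ => norm_neg _] at h3
    simp only [← sub_eq_add_neg] at h3
    linarith [hM Y hY, hM _ (mul_pos hY hy)]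
  · refine (ae_restrict_iff' measurableSet_Ioi).2 (Eventually.of_forall fun y hy => ?_)
    have h1 := (hc a b ha).comp (tendsto_id.prodMk (tendsto_id.atTop_mul_const hy))
    simpa using h1.mul_const (mw B a b y)

variable [Countable ι]

theorem Adm.near (h : Adm N g) (hB : 0 ≤ B) (ha : 0 < a) (hab : a < b) :
    ∃ C, ∀ Y, 0 < Y → ∃ A : ℂ,
      (Sq a b fun v => ff N g B Y v - A * kB B v) ≤ C * EE N g B a b Y := by
  obtain ⟨c, hc, hk⟩ := kB_lower hB ha b
  have hM : 0 < ∫ y in Ioi (0 : ℝ), mw B a b y := by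
    unfold mw
    rw [integral_const_mul]
    exact mul_pos (div_pos (ha.trans hab) ha) (kB_pos hB ha)
  set M := ∫ y in Ioi (0 : ℝ), mw B a b y
  refine ⟨4 * M / c ^ 2, fun Y hY => ?_⟩
  obtain ⟨i1, i2⟩ := h.int2 (b := b) hB ha hY
  let e : ℝ → ℝ := fun v => ∫ y in Ioi (0 : ℝ),
    ‖ff N g B Y v - ff N g B (Y * y) v‖ ^ 2 * mw B a b y
  have he : IntegrableOn e (Icc a b) := i1.integral_prod_left
  obtain ⟨w, hw, hw'⟩ := exists_le_setAverage (by simp [hab]) (by simp) he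
  rw [setAverage_eq, Real.volume_real_Icc_of_le hab.le, smul_eq_mul] at hw'
  obtain ⟨C, hC, hb⟩ := h.norm_ff hB ha
  have key : ∀ v ∈ Icc a b, ∀ w ∈ Icc a b,
      ‖ff N g B Y v * kB B w - ∫ y in Ioi (0 : ℝ),
        ff N g B (Y * y) v * ((y ^ (-(2 / 3) : ℝ) * Kv B w y : ℝ) : ℂ)‖ ^ 2 ≤ M * e v := by
    intro v hv w hw
    have hv' := ha.trans_le hv.1
    have hw' := ha.trans_le hw.1
    have hc1 : ContinuousOn (fun y : ℝ => ff N g B (Y * y) v) (Ioi 0) :=
      (h.continuousOn_ff hB).comp (f := fun y : ℝ => (Y * y, v)) (by fun_prop)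
        fun y hy => ⟨mul_pos hY hy, hv'⟩
    have j1 : Integrable (fun y : ℝ => ((y ^ (-(2 / 3) : ℝ) * Kv B w y : ℝ) : ℂ))
        (volume.restrict (Ioi 0)) :=
      (integrableOn_Kv (s := -(2 / 3)) (by norm_num) hB hw').ofReal (𝕜 := ℂ)
    have j2 : IntegrableOn (fun y : ℝ =>
        ff N g B (Y * y) v * ((y ^ (-(2 / 3) : ℝ) * Kv B w y : ℝ) : ℂ)) (Ioi 0) := by
      refine ((integrableOn_Kv (s := 2) (by norm_num) hB hw').const_mul
        (C * Y ^ (8 / 3 : ℝ))).mono' ((hc1.aestronglyMeasurable measurableSet_Ioi).mul j1.1) ?_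
      refine (ae_restrict_iff' measurableSet_Ioi).2 (Eventually.of_forall fun y hy => ?_)
      have hy' : 0 < y := hy
      have k0 := (le_mw hB ha hw hy').1
      rw [norm_mul, Complex.norm_real, Real.norm_of_nonneg k0]
      refine (mul_le_mul_of_nonneg_right (hb _ v (mul_pos hY hy') hv.1) k0).trans (le_of_eq ?_)
      rw [mul_rpow hY.le hy'.le, show (2 : ℝ) = 8 / 3 + -(2 / 3) by norm_num, rpow_add hy']
      norm_num
      ring
    have := cs (h := fun y => ff N g B Y v - ff N g B (Y * y) v)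
      (p := fun y => y ^ (-(2 / 3) : ℝ) * Kv B w y) (int_mw hB ha) hM
      ((continuousOn_const.sub hc1).aestronglyMeasurable measurableSet_Ioi) (i2 v hv)
      ((ae_restrict_iff' measurableSet_Ioi).2 (Eventually.of_forall fun y hy => le_mw hB ha hw hy))
    simp only [sub_mul] at this
    rwa [integral_sub (j1.const_mul _) j2, integral_const_mul, integral_complex_ofReal] at this
  have hkw := hc.trans_le (hk w hw)
  refine ⟨ff N g B Y w / kB B w, ?_⟩
  have hpt : ∀ v ∈ Icc a b, ‖ff N g B Y v - ff N g B Y w / kB B w * kB B v‖ ^ 2 ≤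
      2 * M / c ^ 2 * (e v + e w) := fun v hv => by
    have k1 := key v hv w hw
    have k2 := key w hw v hv
    rw [aa_sym h hB hY (ha.trans_le hv.1) (ha.trans_le hw.1)] at k1
    set I := ∫ y in Ioi (0 : ℝ), ff N g B (Y * y) w * ((y ^ (-(2 / 3) : ℝ) * Kv B v y : ℝ) : ℂ)
    have k3 := norm_add_sq_le (ff N g B Y v * kB B w - I) (-(ff N g B Y w * kB B v - I))
    have k4 : ff N g B Y v * kB B w - I + -(ff N g B Y w * kB B v - I) =
        (ff N g B Y v - ff N g B Y w / kB B w * kB B v) * kB B w := by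
      have : (kB B w : ℂ) ≠ 0 := Complex.ofReal_ne_zero.2 hkw.ne'
      field_simp
      ring
    rw [k4, norm_neg, norm_mul, mul_pow, Complex.norm_real, Real.norm_of_nonneg hkw.le] at k3
    rw [div_mul_eq_mul_div (2 * M), le_div_iff₀ (by positivity)]
    have k5 := mul_le_mul_of_nonneg_left (pow_le_pow_left₀ hc.le (hk w hw) 2)
      (sq_nonneg ‖ff N g B Y v - ff N g B Y w / kB B w * kB B v‖)
    linarith
  have hi := int_Sq (b := b) (f := fun v => ff N g B Y v - ff N g B Y w / kB B w * kB B v) ha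
    ((h.cont_ff hB hY).sub (continuousOn_const.mul (cont_kB hB)))
  have hcst : IntegrableOn (fun _ : ℝ => e w) (Icc a b) := by simp
  refine (setIntegral_mono_on hi ((he.add hcst).const_mul _) measurableSet_Icc hpt).trans ?_
  rw [integral_const_mul, h.EE_eq hB ha hY]
  simp only [Pi.add_apply]
  rw [integral_add he hcst, setIntegral_const, Real.volume_real_Icc_of_le hab.le, smul_eq_mul]
  have h9 : (b - a) * e w ≤ ∫ v in Icc a b, e v := by
    rwa [← div_eq_inv_mul, le_div_iff₀' (sub_pos.2 hab)] at hw'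
  have h10 : 0 ≤ 2 * M / c ^ 2 := by positivity
  calc 2 * M / c ^ 2 * ((∫ v in Icc a b, e v) + (b - a) * e w)
      ≤ 2 * M / c ^ 2 * ((∫ v in Icc a b, e v) + ∫ v in Icc a b, e v) := by gcongr
    _ = _ := by ring

theorem Sq_line (A A' : ℂ) :
    (Sq a b fun v => A * kB B v - A' * kB B v) = ‖A - A'‖ ^ 2 * Sq a b fun v => (kB B v : ℂ) := by
  rw [← Sq_mul]
  simp only [sub_mul]

theorem Adm.shape0 (h : Adm N g) (hB : 0 ≤ B) (hc : Cau N g B) (ha : 0 < a) (hab : a < b) :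
    ∃ A : ℂ, Tendsto (fun y => Sq a b fun v => ff N g B y v - A * kB B v) atTop (𝓝 0) := by
  obtain ⟨C, hC⟩ := h.near hB ha hab
  choose! A hA using hC
  have hk := Sq_kB_pos hB ha hab
  have ck : ∀ A : ℂ, ContinuousOn (fun v => A * (kB B v : ℂ)) (Ioi 0) := fun A =>
    continuousOn_const.mul (cont_kB hB)
  have h1 : Tendsto (fun y => Sq a b fun v => ff N g B y v - A y * kB B v) atTop (𝓝 0) := by
    refine squeeze_zero' (Eventually.of_forall fun _ => Sq_nonneg)
      ((eventually_gt_atTop 0).mono hA) ?_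
    simpa using (h.EE_tendsto hB hc ha hab.le).const_mul C
  have h2 : Tendsto (fun p : ℝ × ℝ => ‖A p.1 - A p.2‖ ^ 2 * Sq a b fun v => (kB B v : ℂ))
      (atTop ×ˢ atTop) (𝓝 0) := by
    have k := ((h1.comp (tendsto_fst (g := atTop))).const_mul 2).add
      ((((hc a b ha).const_mul 2).add ((h1.comp (tendsto_snd (f := atTop))).const_mul 2)).const_mul 2)
    simp only [mul_zero, add_zero] at k
    refine squeeze_zero' (Eventually.of_forall fun _ => by positivity) ?_ k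
    filter_upwards [(eventually_gt_atTop 0).prod_inl atTop,
      (eventually_gt_atTop 0).prod_inr atTop] with p k1 k2
    rw [← Sq_line]
    have k3 := Sq_tri (b := b) ha (ck (A p.1)) (h.cont_ff hB k1) (ck (A p.2))
    have k4 := Sq_tri (b := b) ha (h.cont_ff hB k1) (h.cont_ff hB k2) (ck (A p.2))
    rw [Sq_symm (h := ff N g B p.1)] at k3
    simp only [Function.comp]
    linarith
  have h3 : Tendsto (fun p : ℝ × ℝ => dist (A p.1) (A p.2)) (atTop ×ˢ atTop) (𝓝 0) := by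
    have k := (h2.div_const (Sq a b fun v => (kB B v : ℂ))).sqrt
    simpa [mul_div_cancel_right₀ _ hk.ne', dist_eq_norm] using k
  obtain ⟨A0, h4⟩ := cauchySeq_tendsto_of_complete (u := A)
    (cauchySeq_iff_tendsto_dist_atTop_0.2 (by rwa [← prod_atTop_atTop_eq]))
  refine ⟨A0, ?_⟩
  have h5 := (((tendsto_iff_norm_sub_tendsto_zero.1 h4).pow 2).mul_const
    (Sq a b fun v => (kB B v : ℂ))).const_mul 2
  have k := (h1.const_mul 2).add h5
  simp only [mul_zero, add_zero, zero_mul, ne_eq, OfNat.ofNat_ne_zero, not_false_eq_true,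
    zero_pow] at k
  refine squeeze_zero' (Eventually.of_forall fun _ => Sq_nonneg) ?_ k
  filter_upwards [eventually_gt_atTop 0] with y hy
  rw [← Sq_line]
  exact Sq_tri ha (h.cont_ff hB hy) (ck _) (ck _)

omit [Countable ι] in
theorem Adm.uniq (h : Adm N g) (hB : 0 ≤ B) (ha : 0 < a) (hab : a < b) {A A' : ℂ}
    (h1 : Tendsto (fun y => Sq a b fun v => ff N g B y v - A * kB B v) atTop (𝓝 0))
    (h2 : Tendsto (fun y => Sq a b fun v => ff N g B y v - A' * kB B v) atTop (𝓝 0)) :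
    A = A' := by
  have k := (h1.const_mul 2).add (h2.const_mul 2)
  simp only [mul_zero, add_zero] at k
  have h3 : ‖A - A'‖ ^ 2 * (Sq a b fun v => (kB B v : ℂ)) ≤ 0 := by
    refine ge_of_tendsto k ?_
    filter_upwards [eventually_gt_atTop 0] with y hy
    rw [← Sq_line, Sq_symm (f := ff N g B y)]
    exact Sq_tri ha (continuousOn_const.mul (cont_kB hB)) (h.cont_ff hB hy)
      (continuousOn_const.mul (cont_kB hB))
  have h4 := nonpos_of_mul_nonpos_left h3 (Sq_kB_pos hB ha hab)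
  exact sub_eq_zero.1 (norm_eq_zero.1 (pow_eq_zero_iff two_ne_zero |>.1
    (le_antisymm h4 (by positivity))))

/-- the shape theorem -/
theorem shape (h : Adm N g) (hB : 0 ≤ B) (hc : Cau N g B) : ∃ A, Lim N g B A := by
  obtain ⟨A, hA⟩ := h.shape0 hB hc one_pos one_lt_two
  refine ⟨A, fun a b ha => ?_⟩
  have h1 : 0 < min a 1 := lt_min ha one_pos
  obtain ⟨A', hA'⟩ := h.shape0 (b := max b 2) hB hc h1
    ((min_le_right _ _).trans_lt (one_lt_two.trans_le (le_max_right _ _)))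
  have h2 : ∀ a' b', min a 1 ≤ a' → b' ≤ max b 2 →
      Tendsto (fun y => Sq a' b' fun v => ff N g B y v - A' * kB B v) atTop (𝓝 0) := by
    intro a' b' k1 k2
    refine squeeze_zero' (Eventually.of_forall fun _ => Sq_nonneg) ?_ hA'
    filter_upwards [eventually_gt_atTop 0] with y hy
    exact Sq_mono h1 k1 k2 ((h.cont_ff hB hy).sub (continuousOn_const.mul (cont_kB hB)))
  rw [h.uniq hB one_pos one_lt_two hA (h2 1 2 (min_le_right _ _) (le_max_right _ _))]
  exact h2 a b (min_le_left _ _) (le_max_left _ _)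

end Pool.Agent.P.MP_26a8c3_nt.QK
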